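import Pool.Agent.H402.FF.Sym

/-!
# FF/DI (helper872 for helper402, MP_b48e27_co)

Full minors of an order type tensor, case DI.
-/

set_option autoImplicit false
set_option linter.unusedSimpArgs false

open Finset

namespace Pool.Agent.H872.FF_DI

open Pool.Agent.H402.FF

universe u

theorem SL_dx {F X Y Z : Type*} [Field F] {T : X → Y → Z → F} {k : ℕ} (h : SL T k)
    (φ : X → F) (x0 : X) : SL (fun x y z => T x y z - φ x * T x0 y z) k := by
  obtain ⟨p, q, r, hp, a, g, b, h, c, e, H⟩ := h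
  refine ⟨p, q, r, hp, fun i x => a i x - φ x * a i x0, g, b,
    fun i x z => h i x z - φ x * h i x0 z, c, fun i x y => e i x y - φ x * e i x0 y,
    fun x y z => ?_⟩
  have e1 : ∑ i, (a i x - φ x * a i x0) * g i y z =
      ∑ i, a i x * g i y z - φ x * ∑ i, a i x0 * g i y z := by
    rw [Finset.mul_sum, ← Finset.sum_sub_distrib]
    exact Finset.sum_congr rfl fun i _ => by ring
  have e2 : ∑ i, b i y * (h i x z - φ x * h i x0 z) =
      ∑ i, b i y * h i x z - φ x * ∑ i, b i y * h i x0 z := by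
    rw [Finset.mul_sum, ← Finset.sum_sub_distrib]
    exact Finset.sum_congr rfl fun i _ => by ring
  have e3 : ∑ i, c i z * (e i x y - φ x * e i x0 y) =
      ∑ i, c i z * e i x y - φ x * ∑ i, c i z * e i x0 y := by
    rw [Finset.mul_sum, ← Finset.sum_sub_distrib]
    exact Finset.sum_congr rfl fun i _ => by ring
  dsimp only
  rw [H, H, e1, e2, e3]
  ring

theorem SL_dy {F X Y Z : Type*} [Field F] {T : X → Y → Z → F} {k : ℕ} (h : SL T k)
    (φ : Y → F) (y0 : Y) : SL (fun x y z => T x y z - φ y * T x y0 z) k :=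
  (SL_dx h.swapXY φ y0).swapXY

theorem SL_dz {F X Y Z : Type*} [Field F] {T : X → Y → Z → F} {k : ℕ} (h : SL T k)
    (φ : Z → F) (z0 : Z) : SL (fun x y z => T x y z - φ z * T x y z0) k :=
  (SL_dy h.swapYZ φ z0).swapYZ

/-- the positions -/
def pt {n : ℕ} (x0 : ℤ) : Fin (n + 1) → ℤ := Fin.cons x0 (fun i : Fin n => (i : ℤ) + 1)

theorem pt_zero {n : ℕ} (x0 : ℤ) : pt (n := n) x0 0 = x0 := rfl

theorem pt_succ {n : ℕ} (x0 : ℤ) (i : Fin n) : pt x0 i.succ = (i : ℤ) + 1 := rfl

/-- the coefficients of the differences -/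
def ph (F : Type u) [Field F] {n : ℕ} : Fin (n + 1) → F := Fin.cons 0 (fun _ : Fin n => 1)

theorem ph_zero (F : Type u) [Field F] {n : ℕ} : ph F (n := n) 0 = 0 := rfl

theorem ph_succ (F : Type u) [Field F] {n : ℕ} (i : Fin n) : ph F i.succ = 1 := rfl

/-- the tensor of differences -/
def df {F : Type u} [Field F] {n : ℕ} (M : Fin (n + 1) → Fin (n + 1) → Fin (n + 1) → F) :
    Fin (n + 1) → Fin (n + 1) → Fin (n + 1) → F := fun x y z =>
  ((M x y z - ph F x * M 0 y z) - ph F y * (M x 0 z - ph F x * M 0 0 z)) -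
    ph F z * ((M x y 0 - ph F x * M 0 y 0) - ph F y * (M x 0 0 - ph F x * M 0 0 0))

theorem SL_df {F : Type u} [Field F] {n : ℕ} {M : Fin (n + 1) → Fin (n + 1) → Fin (n + 1) → F}
    {k : ℕ} (h : SL M k) : SL (df M) k :=
  SL_dz (SL_dy (SL_dx h (ph F) 0) (ph F) 0) (ph F) 0

theorem not_FM {F : Type u} [Field F] {T : ℤ → ℤ → ℤ → F} {l : ℕ} (h : ¬ FM T l)
    (px py pz : Fin l → ℤ) : SL (fun i j k => T (px i) (py j) (pz k)) l := by
  by_contra h'
  exact h ⟨px, py, pz, h'⟩

theorem entries {F : Type u} [Field F] (e a b c a' b' c' d : F) (n : ℕ)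
    (hQ : ¬ FM (TII e a b c a' b' c' 0 0 0 d) (n + 1)) (x0 y0 z0 : ℤ) (hx : x0 ≤ 0) (hy : y0 ≤ 0)
    (hz : z0 ≤ 0) (hne : ¬ (x0 = y0 ∧ y0 = z0)) (A B C : F)
    (hA : A = a * ind F (y0 < z0) + a' * ind F (y0 = z0))
    (hB : B = b * ind F (x0 < z0) + b' * ind F (x0 = z0))
    (hC : C = c * ind F (x0 < y0) + c' * ind F (x0 = y0)) :
    ∃ N : Fin (n + 1) → Fin (n + 1) → Fin (n + 1) → F, SL N (n + 1) ∧
      (∀ i j k : Fin n, N i.succ j.succ k.succ = if i = j ∧ j = k then d else 0) ∧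
      (∀ j k : Fin n, N 0 j.succ k.succ =
        (if j < k then a else 0) + (if j = k then a' else 0) - a + A) ∧
      (∀ i k : Fin n, N i.succ 0 k.succ =
        (if i < k then b else 0) + (if i = k then b' else 0) - b + B) ∧
      (∀ i j : Fin n, N i.succ j.succ 0 =
        (if i < j then c else 0) + (if i = j then c' else 0) - c + C) ∧
      (∀ i : Fin n, N i.succ 0 0 = - B - C) ∧ (∀ j : Fin n, N 0 j.succ 0 = c - A - C) ∧
      (∀ k : Fin n, N 0 0 k.succ = a + b - A - B) ∧ N 0 0 0 = e + A + B + C := by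
  have key : ∀ x y z : ℤ, TII e a b c a' b' c' 0 0 0 d x y z =
      e + (a * ind F (y < z) + a' * ind F (y = z)) + (b * ind F (x < z) + b' * ind F (x = z)) +
        (c * ind F (x < y) + c' * ind F (x = y)) + d * ind F (x = y ∧ y = z) := by
    intro x y z
    unfold TII
    ring
  have l1 : ∀ i j : Fin n, ind F ((i : ℤ) + 1 < (j : ℤ) + 1) = if i < j then 1 else 0 := by
    intro i j
    unfold ind
    by_cases h : i < j
    · rw [if_pos h, if_pos]
      have := Fin.lt_def.1 h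
      omega
    · rw [if_neg h, if_neg]
      intro h'
      apply h
      rw [Fin.lt_def]
      omega
  have l2 : ∀ i j : Fin n, ind F ((i : ℤ) + 1 = (j : ℤ) + 1) = if i = j then 1 else 0 := by
    intro i j
    unfold ind
    by_cases h : i = j
    · rw [if_pos h, if_pos]
      rw [h]
    · rw [if_neg h, if_neg]
      intro h'
      apply h
      apply Fin.ext
      omega
  have l3 : ∀ (x : ℤ) (i : Fin n), x ≤ 0 → ind F (x < (i : ℤ) + 1) = 1 := by
    intro x i hx
    apply ind_true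
    omega
  have l4 : ∀ (x : ℤ) (i : Fin n), x ≤ 0 → ind F ((i : ℤ) + 1 < x) = 0 := by
    intro x i hx
    apply ind_false
    omega
  have l5 : ∀ (x : ℤ) (i : Fin n), x ≤ 0 → ind F (x = (i : ℤ) + 1) = 0 := by
    intro x i hx
    apply ind_false
    omega
  have l6 : ∀ (x : ℤ) (i : Fin n), x ≤ 0 → ind F ((i : ℤ) + 1 = x) = 0 := by
    intro x i hx
    apply ind_false
    omega
  have d1 : ∀ (i j k : Fin n), ind F ((i : ℤ) + 1 = (j : ℤ) + 1 ∧ (j : ℤ) + 1 = (k : ℤ) + 1) =
      if i = j ∧ j = k then 1 else 0 := by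
    intro i j k
    unfold ind
    by_cases h : i = j ∧ j = k
    · rw [if_pos h, if_pos]
      rw [h.1, h.2]
      exact ⟨rfl, rfl⟩
    · rw [if_neg h, if_neg]
      intro h'
      apply h
      constructor
      · apply Fin.ext
        omega
      · apply Fin.ext
        omega
  have d2 : ∀ (x : ℤ) (j k : Fin n), x ≤ 0 →
      ind F (x = (j : ℤ) + 1 ∧ (j : ℤ) + 1 = (k : ℤ) + 1) = 0 := by
    intro x j k hx
    apply ind_false
    omega
  have d3 : ∀ (x : ℤ) (j k : Fin n), x ≤ 0 →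
      ind F ((j : ℤ) + 1 = x ∧ x = (k : ℤ) + 1) = 0 := by
    intro x j k hx
    apply ind_false
    omega
  have d4 : ∀ (x : ℤ) (j k : Fin n), x ≤ 0 →
      ind F ((j : ℤ) + 1 = (k : ℤ) + 1 ∧ (k : ℤ) + 1 = x) = 0 := by
    intro x j k hx
    apply ind_false
    omega
  have d5 : ∀ (x y : ℤ) (j : Fin n), x ≤ 0 → y ≤ 0 →
      ind F (x = y ∧ y = (j : ℤ) + 1) = 0 := by
    intro x y j hx hy
    apply ind_false
    omega
  have d6 : ∀ (x y : ℤ) (j : Fin n), x ≤ 0 → y ≤ 0 →
      ind F (x = (j : ℤ) + 1 ∧ (j : ℤ) + 1 = y) = 0 := by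
    intro x y j hx hy
    apply ind_false
    omega
  have d7 : ∀ (x y : ℤ) (j : Fin n), x ≤ 0 → y ≤ 0 →
      ind F ((j : ℤ) + 1 = x ∧ x = y) = 0 := by
    intro x y j hx hy
    apply ind_false
    omega
  have d8 : ind F (x0 = y0 ∧ y0 = z0) = 0 := ind_false hne
  refine ⟨df (fun i j k => TII e a b c a' b' c' 0 0 0 d (pt x0 i) (pt y0 j) (pt z0 k)),
    SL_df (not_FM hQ _ _ _), ?_, ?_, ?_, ?_, ?_, ?_, ?_, ?_⟩
  · intro i j k
    simp only [df, ph_succ, pt_succ, pt_zero, key, d1, d2 x0 _ _ hx, d3 y0 _ _ hy, d4 z0 _ _ hz,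
      d5 x0 y0 _ hx hy, d6 x0 z0 _ hx hz, d7 y0 z0 _ hy hz, d8]
    split_ifs <;> ring
  · intro j k
    simp only [df, ph_succ, ph_zero, pt_succ, pt_zero, key, d1, d2 x0 _ _ hx, d3 y0 _ _ hy,
      d4 z0 _ _ hz, d5 x0 y0 _ hx hy, d6 x0 z0 _ hx hz, d7 y0 z0 _ hy hz, d8, l1, l2,
      l3 x0 _ hx, l3 y0 _ hy, l4 z0 _ hz, l4 y0 _ hy, l5 x0 _ hx, l5 y0 _ hy, l6 y0 _ hy,
      l6 z0 _ hz, hA]
    split_ifs <;> ring
  · intro j k
    simp only [df, ph_succ, ph_zero, pt_succ, pt_zero, key, d1, d2 x0 _ _ hx, d3 y0 _ _ hy,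
      d4 z0 _ _ hz, d5 x0 y0 _ hx hy, d6 x0 z0 _ hx hz, d7 y0 z0 _ hy hz, d8, l1, l2,
      l3 x0 _ hx, l3 y0 _ hy, l4 z0 _ hz, l4 y0 _ hy, l5 x0 _ hx, l5 y0 _ hy, l6 y0 _ hy,
      l6 z0 _ hz, hB]
    split_ifs <;> ring
  · intro j k
    simp only [df, ph_succ, ph_zero, pt_succ, pt_zero, key, d1, d2 x0 _ _ hx, d3 y0 _ _ hy,
      d4 z0 _ _ hz, d5 x0 y0 _ hx hy, d6 x0 z0 _ hx hz, d7 y0 z0 _ hy hz, d8, l1, l2,
      l3 x0 _ hx, l3 y0 _ hy, l4 z0 _ hz, l4 y0 _ hy, l5 x0 _ hx, l5 y0 _ hy, l6 y0 _ hy,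
      l6 z0 _ hz, hC]
    split_ifs <;> ring
  · intro i
    simp only [df, ph_succ, ph_zero, pt_succ, pt_zero, key, d7 y0 z0 _ hy hz, d8,
      l4 z0 _ hz, l4 y0 _ hy, l6 y0 _ hy, l6 z0 _ hz, hB, hC]
    ring
  · intro i
    simp only [df, ph_succ, ph_zero, pt_succ, pt_zero, key, d6 x0 z0 _ hx hz, d8,
      l3 x0 _ hx, l4 z0 _ hz, l5 x0 _ hx, l6 z0 _ hz, hA, hC]
    ring
  · intro i
    simp only [df, ph_succ, ph_zero, pt_succ, pt_zero, key, d5 x0 y0 _ hx hy, d8,
      l3 x0 _ hx, l3 y0 _ hy, l5 x0 _ hx, l5 y0 _ hy, hA, hB]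
    ring
  · simp only [df, ph_zero, pt_zero, key, d8, hA, hB, hC]
    ring

/-- no minor of size `n + 1` is full -/
def Q {F : Type u} [Field F] (n : ℕ) (d e a b c a' b' c' : F) : Prop :=
  ¬ FM (TII e a b c a' b' c' 0 0 0 d) (n + 1)

theorem Q.swapXY {F : Type u} [Field F] {n : ℕ} {d e a b c a' b' c' : F}
    (h : Q n d e a b c a' b' c') : Q n d (e + c) b a (-c) b' a' (c' - c) := by
  intro h'
  apply h
  apply FM.swapXY
  rw [TII_swapXY]
  exact h'

theorem Q.swapYZ {F : Type u} [Field F] {n : ℕ} {d e a b c a' b' c' : F}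
    (h : Q n d e a b c a' b' c') : Q n d (e + a) (-a) c b (a' - a) c' b' := by
  intro h'
  apply h
  apply FM.swapYZ
  rw [TII_swapYZ]
  exact h'

theorem fin3_cases (t : Fin 3) : t = 0 ∨ t = 1 ∨ t = 2 := by
  match t with
  | 0 => exact Or.inl rfl
  | 1 => exact Or.inr (Or.inl rfl)
  | 2 => exact Or.inr (Or.inr rfl)

theorem step1 (h1 : S_zb.{u}) {F : Type u} [Field F] {n : ℕ} (hn : 3 ≤ n) {d e a b c a' b' c' : F}
    (hd : d ≠ 0) (h : Q n d e a b c a' b' c') (ha : a ≠ 0) (hb : b ≠ 0) : False := by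
  obtain ⟨N, hS, hI, hA, hB, hC, hX, hY, hZ, hO⟩ := entries e a b c a' b' c' d n h 0 (-2) (-1)
    le_rfl (by norm_num) (by norm_num) (by norm_num) a 0 0
    (by rw [ind_true (by norm_num), ind_false (by norm_num)]; ring)
    (by rw [ind_false (by norm_num), ind_false (by norm_num)]; ring)
    (by rw [ind_false (by norm_num), ind_false (by norm_num)]; ring)
  obtain ⟨τ, μ, ν, ω, sμ, sν, sω, kA, kB, kC, kX, kY, kZ, kO⟩ := h1 F n N (fun _ => d)
    (fun _ => hd) hI hS
  have nA : ∀ j k : Fin n, j < k → τ j ≠ 1 → τ k ≠ 2 → False := by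
    intro j k hjk hj hk
    have h := kA j k hj hk
    rw [hA, if_pos hjk, if_neg hjk.ne, if_neg hjk.ne] at h
    apply ha
    rw [← h]
    ring
  have nB : ∀ k i : Fin n, k < i → τ k ≠ 2 → τ i ≠ 0 → False := by
    intro k i hjk hj hk
    have h := kB i k hk hj
    rw [hB, if_neg hjk.not_gt, if_neg hjk.ne', if_neg hjk.ne'] at h
    apply hb
    have : -b = 0 := by
      rw [← h]
      ring
    exact neg_eq_zero.1 this
  have t0 : ∀ p q : Fin n, p < q → τ p ≠ 0 := by
    intro p q hpq hp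
    have h1 : τ q = 2 := by
      by_contra h'
      exact nA p q hpq (by rw [hp]; decide) h'
    exact nB p q hpq (by rw [hp]; decide) (by rw [h1]; decide)
  have t1 : ∀ p q r : Fin n, p < q → q < r → τ p ≠ 1 := by
    intro p q r hpq hqr hp
    have h1 : τ q = 0 := by
      by_contra h'
      exact nB p q hpq (by rw [hp]; decide) h'
    exact t0 q r hqr h1
  let i0 : Fin n := ⟨0, by omega⟩
  let i1 : Fin n := ⟨n - 2, by omega⟩
  let i2 : Fin n := ⟨n - 1, by omega⟩
  have h01 : i0 < i1 := by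
    rw [Fin.lt_def]
    show 0 < n - 2
    omega
  have h12 : i1 < i2 := by
    rw [Fin.lt_def]
    show n - 2 < n - 1
    omega
  have hτ0 : τ i0 = 2 := by
    rcases fin3_cases (τ i0) with h | h | h
    · exact absurd h (t0 i0 i1 h01)
    · exact absurd h (t1 i0 i1 i2 h01 h12)
    · exact h
  have hτ : ∀ i, τ i = 2 := by
    intro i
    by_cases hi : i = i0
    · rw [hi]
      exact hτ0
    · have h0i : i0 < i := by
        rw [Fin.lt_def]
        show 0 < (i : ℕ)
        rcases Nat.eq_zero_or_pos (i : ℕ) with h | h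
        · exact absurd (Fin.ext h) hi
        · exact h
      by_contra h'
      exact nA i0 i h0i (by rw [hτ0]; decide) h'
  have hμ : ∀ i, μ i = 0 := fun i => sμ i (by rw [hτ]; decide)
  have hν : ∀ i, ν i = 0 := fun i => sν i (by rw [hτ]; decide)
  have hc : c = 0 := by
    have h := kC i1 i0 (by rw [hτ]; decide) (by rw [hτ]; decide)
    rw [hC, if_neg h01.not_gt, if_neg h01.ne', if_neg h01.ne'] at h
    have : -c = 0 := by
      rw [← h]
      ring
    exact neg_eq_zero.1 this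
  have hω : ∀ i, c' + d * ω i = 0 := by
    intro i
    have h := kC i i (by rw [hτ]; decide) (by rw [hτ]; decide)
    rw [hC, if_neg (lt_irrefl _), if_pos rfl, if_pos rfl, hc] at h
    rw [← h]
    ring
  have hω' : ∀ i, ω i = ω i2 := by
    intro i
    have h1 := hω i
    have h2 := hω i2
    have h3 : d * ω i = d * ω i2 := by
      have : c' + d * ω i = c' + d * ω i2 := by rw [h1, h2]
      exact add_left_cancel this
    exact mul_left_cancel₀ hd h3
  have hyj : ∀ j : Fin n, - a + ∑ k : Fin n, ω i2 * ((if j < k then a else 0) + (if j = k then a' else 0)) = 0 := by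
    intro j
    have h := kY j (by rw [hτ]; decide)
    rw [hY, hc] at h
    have e1 : ∑ i, μ i * N i.succ j.succ 0 = 0 := by
      apply Finset.sum_eq_zero
      intro i _
      rw [hμ, zero_mul]
    rw [e1] at h
    have e2 : ∀ k, ω k * N 0 j.succ k.succ =
        ω i2 * ((if j < k then a else 0) + (if j = k then a' else 0)) := by
      intro k
      rw [hω' k, hA]
      ring
    have e3 : ∑ k, ω k * N 0 j.succ k.succ =
        ∑ k, ω i2 * ((if j < k then a else 0) + (if j = k then a' else 0)) :=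
      Finset.sum_congr rfl (fun k _ => e2 k)
    rw [e3] at h
    linear_combination h
  have y2 : - a + ω i2 * a' = 0 := by
    have h := hyj i2
    rw [Finset.sum_eq_single i2] at h
    · rw [if_neg (lt_irrefl _), if_pos rfl, zero_add] at h
      exact h
    · intro k _ hk
      have h1 : ¬ i2 < k := by
        rw [Fin.lt_def]
        have := k.2
        show ¬ (n - 1 < (k : ℕ))
        omega
      rw [if_neg h1, if_neg (Ne.symm hk)]
      ring
    · intro h'
      exact absurd (Finset.mem_univ _) h'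
  have y1 : - a + (ω i2 * a + ω i2 * a') = 0 := by
    have h := hyj i1
    rw [← Finset.add_sum_erase _ _ (Finset.mem_univ i2),
      ← Finset.add_sum_erase _ _ (Finset.mem_erase.2 ⟨h12.ne, Finset.mem_univ i1⟩)] at h
    rw [Finset.sum_eq_zero] at h
    · rw [if_pos h12, if_neg h12.ne, if_neg (lt_irrefl _), if_pos rfl] at h
      rw [← h]
      ring
    · intro k hk
      have hk1 : k ≠ i1 := (Finset.mem_erase.1 hk).1
      have hk2 : k ≠ i2 := (Finset.mem_erase.1 (Finset.mem_erase.1 hk).2).1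
      have h1 : ¬ i1 < k := by
        rw [Fin.lt_def]
        have := k.2
        have h3 : (k : ℕ) ≠ n - 1 := fun h => hk2 (Fin.ext h)
        show ¬ (n - 2 < (k : ℕ))
        omega
      rw [if_neg h1, if_neg (Ne.symm hk1)]
      ring
  have y3 : ω i2 * a = 0 := by
    have : (- a + (ω i2 * a + ω i2 * a')) - (- a + ω i2 * a') = 0 := by rw [y1, y2, sub_zero]
    rw [← this]
    ring
  have y4 : ω i2 = 0 := by
    rcases mul_eq_zero.1 y3 with h | h
    · exact h
    · exact absurd h ha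
  rw [y4] at y2
  apply ha
  have : -a = 0 := by
    rw [← y2]
    ring
  exact neg_eq_zero.1 this

theorem step3 (h2 : S_nf.{u}) {F : Type u} [Field F] {n : ℕ} (hn : 3 ≤ n) {d e a a' b' c' : F}
    (hd : d ≠ 0) (h : Q n d e a 0 0 a' b' c') : e + a = 0 := by
  obtain ⟨N, hS, hI, hA, hB, hC, hX, hY, hZ, hO⟩ := entries e a 0 0 a' b' c' d n h 0 (-2) (-1)
    le_rfl (by norm_num) (by norm_num) (by norm_num) a 0 0
    (by rw [ind_true (by norm_num), ind_false (by norm_num)]; ring)
    (by rw [ind_false (by norm_num), ind_false (by norm_num)]; ring)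
    (by rw [ind_false (by norm_num), ind_false (by norm_num)]; ring)
  refine h2 F n N d a b' c' a' (e + a) (by omega) hd hI ?_ ?_ ?_ ?_ ?_ ?_ ?_ hS
  · intro j k
    rw [hA]
    ring
  · intro i k
    rw [hB]
    split_ifs <;> ring
  · intro i j
    rw [hC]
    split_ifs <;> ring
  · intro i
    rw [hX]
    ring
  · intro j
    rw [hY]
    ring
  · intro k
    rw [hZ]
    ring
  · rw [hO]
    ring

theorem step3' (h2 : S_nf.{u}) {F : Type u} [Field F] {n : ℕ} (hn : 3 ≤ n) {d e a a' b' c' : F}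
    (hd : d ≠ 0) (h : Q n d e a 0 0 a' b' c') : e = 0 ∧ a = 0 := by
  have h1 := step3 h2 hn hd h
  have h2 := step3 h2 hn hd h.swapYZ
  have h3 : e = 0 := by
    rw [← h2]
    ring
  refine ⟨h3, ?_⟩
  rw [h3, zero_add] at h1
  exact h1

theorem step5 (h1 : S_zb.{u}) {F : Type u} [Field F] {n : ℕ} (hn : 3 ≤ n) {d a' b' c' : F}
    (hd : d ≠ 0) (h : Q n d 0 0 0 0 a' b' c') : a' = 0 := by
  by_contra ha
  obtain ⟨N, hS, hI, hA, hB, hC, hX, hY, hZ, hO⟩ := entries 0 0 0 0 a' b' c' d n h 0 (-1) (-1)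
    le_rfl (by norm_num) (by norm_num) (by norm_num) a' 0 0
    (by rw [ind_false (by norm_num), ind_true rfl]; ring)
    (by rw [ind_false (by norm_num), ind_false (by norm_num)]; ring)
    (by rw [ind_false (by norm_num), ind_false (by norm_num)]; ring)
  obtain ⟨τ, μ, ν, ω, sμ, sν, sω, kA, kB, kC, kX, kY, kZ, kO⟩ := h1 F n N (fun _ => d)
    (fun _ => hd) hI hS
  have hA' : ∀ j k : Fin n, N 0 j.succ k.succ = (if j = k then a' else 0) + a' := by
    intro j k
    rw [hA]
    split_ifs <;> ring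
  have nA : ∀ j k : Fin n, j ≠ k → τ j ≠ 1 → τ k ≠ 2 → False := by
    intro j k hjk hj hk
    have h := kA j k hj hk
    rw [hA', if_neg hjk, if_neg hjk] at h
    apply ha
    rw [← h]
    ring
  have hex : ∀ j : Fin n, ∃ k : Fin n, k ≠ j := by
    intro j
    by_cases hj : (j : ℕ) = 0
    · refine ⟨⟨1, by omega⟩, fun h => ?_⟩
      rw [← h] at hj
      exact absurd hj (by norm_num)
    · refine ⟨⟨0, by omega⟩, fun h => ?_⟩
      rw [← h] at hj
      exact hj rfl
  have t0 : ∀ j, τ j ≠ 0 := by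
    intro j hj
    obtain ⟨k, hk⟩ := hex j
    have h1 : τ k = 2 := by
      by_contra h'
      exact nA j k (Ne.symm hk) (by rw [hj]; decide) h'
    exact nA k j hk (by rw [h1]; decide) (by rw [hj]; decide)
  have hj0 : 0 < n := by omega
  let j0 : Fin n := ⟨0, hj0⟩
  have hsum : ∀ (v : Fin n → F) (k : Fin n), ∑ j, v j * ((if j = k then a' else 0) + a') =
      v k * a' + (∑ j, v j) * a' := by
    intro v k
    rw [Finset.sum_mul, ← Finset.sum_add_sum_compl {k} (fun j => v j * ((if j = k then a' else 0) + a')),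
      ← Finset.sum_add_sum_compl {k} (fun j => v j * a'), Finset.sum_singleton,
      Finset.sum_singleton, if_pos rfl]
    have : ∑ j ∈ {k}ᶜ, v j * ((if j = k then a' else 0) + a') = ∑ j ∈ {k}ᶜ, v j * a' := by
      apply Finset.sum_congr rfl
      intro j hj
      have : j ≠ k := fun h => (Finset.mem_compl.1 hj) (Finset.mem_singleton.2 h)
      rw [if_neg this, zero_add]
    rw [this]
    ring
  have hX' : ∀ i : Fin n, N i.succ 0 0 = 0 := by
    intro i
    rw [hX]
    ring
  have hY' : ∀ i : Fin n, N 0 i.succ 0 = - a' := by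
    intro i
    rw [hY]
    ring
  have hZ' : ∀ i : Fin n, N 0 0 i.succ = - a' := by
    intro i
    rw [hZ]
    ring
  have hO' : N 0 0 0 = a' := by
    rw [hO]
    ring
  have hs2 : ∀ v : Fin n → F, ∑ j, v j * (- a') = - ((∑ j, v j) * a') := by
    intro v
    rw [← Finset.sum_mul]
    ring
  rcases fin3_cases (τ j0) with h0 | h0 | h0
  · exact t0 j0 h0
  · -- everything is `1`
    have hτ : ∀ j, τ j = 1 := by
      intro j
      by_cases hj : j = j0
      · rw [hj]
        exact h0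
      · by_contra h'
        exact nA j j0 hj h' (by rw [h0]; decide)
    have hμ : ∀ i, μ i = 0 := fun i => sμ i (by rw [hτ]; decide)
    have hω : ∀ i, ω i = 0 := fun i => sω i (by rw [hτ]; decide)
    have f1 : a' - (∑ j, ν j) * a' = 0 := by
      rw [← kO, hO']
      simp only [hμ, hω, hY', zero_mul, mul_zero, Finset.sum_const_zero]
      rw [hs2]
      ring
    have f2 : ∀ k, - a' + (ν k * a' + (∑ j, ν j) * a') = 0 := by
      intro k
      rw [← kZ k (by rw [hτ]; decide), hZ', ← hsum]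
      simp only [hμ, hA', zero_mul, Finset.sum_const_zero]
      ring
    have f3 : ∀ k, ν k = 0 := by
      intro k
      have h3 : ν k * a' = 0 := by
        have : (- a' + (ν k * a' + (∑ j, ν j) * a')) + (a' - (∑ j, ν j) * a') = 0 := by
          rw [f1, f2 k, add_zero]
        rw [← this]
        ring
      rcases mul_eq_zero.1 h3 with h | h
      · exact h
      · exact absurd h ha
    rw [Finset.sum_congr rfl (fun j _ => f3 j), Finset.sum_const_zero, zero_mul, sub_zero] at f1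
    exact ha f1
  · -- everything is `2`
    have hτ : ∀ j, τ j = 2 := by
      intro j
      by_cases hj : j = j0
      · rw [hj]
        exact h0
      · by_contra h'
        exact nA j0 j (Ne.symm hj) (by rw [h0]; decide) h'
    have hμ : ∀ i, μ i = 0 := fun i => sμ i (by rw [hτ]; decide)
    have hν : ∀ i, ν i = 0 := fun i => sν i (by rw [hτ]; decide)
    have f1 : a' - (∑ j, ω j) * a' = 0 := by
      rw [← kO, hO']
      simp only [hμ, hν, hZ', zero_mul, mul_zero, Finset.sum_const_zero]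
      rw [hs2]
      ring
    have f2 : ∀ k, - a' + (ω k * a' + (∑ j, ω j) * a') = 0 := by
      intro k
      rw [← kY k (by rw [hτ]; decide), hY', ← hsum]
      simp only [hμ, hA', zero_mul, Finset.sum_const_zero, eq_comm (a := k)]
      ring
    have f3 : ∀ k, ω k = 0 := by
      intro k
      have h3 : ω k * a' = 0 := by
        have : (- a' + (ω k * a' + (∑ j, ω j) * a')) + (a' - (∑ j, ω j) * a') = 0 := by
          rw [f1, f2 k, add_zero]
        rw [← this]
        ring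
      rcases mul_eq_zero.1 h3 with h | h
      · exact h
      · exact absurd h ha
    rw [Finset.sum_congr rfl (fun j _ => f3 j), Finset.sum_const_zero, zero_mul, sub_zero] at f1
    exact ha f1

theorem step6 (h1 : S_zb.{u}) {F : Type u} [Field F] {n : ℕ} {d : F}
    (hd : d ≠ 0) (h : Q n d 0 0 0 0 0 0 0) : False := by
  have hS := not_FM h (fun i : Fin (n + 1) => ((i : ℕ) : ℤ)) (fun i : Fin (n + 1) => ((i : ℕ) : ℤ))
    (fun i : Fin (n + 1) => ((i : ℕ) : ℤ))
  have key : ∀ i j k : Fin (n + 1), TII (0 : F) 0 0 0 0 0 0 0 0 0 d ((i : ℕ) : ℤ) ((j : ℕ) : ℤ)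
      ((k : ℕ) : ℤ) = if i = j ∧ j = k then d else 0 := by
    intro i j k
    unfold TII
    by_cases h : i = j ∧ j = k
    · rw [if_pos h, ind_true (p := ((i : ℕ) : ℤ) = ((j : ℕ) : ℤ) ∧ ((j : ℕ) : ℤ) = ((k : ℕ) : ℤ))
        (by rw [h.1, h.2]; exact ⟨rfl, rfl⟩)]
      ring
    · rw [if_neg h, ind_false (p := ((i : ℕ) : ℤ) = ((j : ℕ) : ℤ) ∧ ((j : ℕ) : ℤ) = ((k : ℕ) : ℤ))]
      · ring
      · intro h'
        apply h
        exact ⟨Fin.ext (by omega), Fin.ext (by omega)⟩
  simp only [key] at hS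
  obtain ⟨τ, μ, ν, ω, sμ, sν, sω, kA, kB, kC, kX, kY, kZ, kO⟩ := h1 F n
    (fun i j k => if i = j ∧ j = k then d else 0) (fun _ => d) (fun _ => hd) (by
      intro i j k
      simp only [Fin.succ_inj]) hS
  apply hd
  rw [← kO]
  simp [Fin.succ_ne_zero, (Fin.succ_ne_zero _).symm]

theorem holds (h1 : S_zb.{u}) (h2 : S_nf.{u}) (_h3 : S_df.{u}) : S_di.{u} := by
  intro F _ e a b c a' b' c' d hd n hn
  by_contra hQ
  have q0 : Q n d e a b c a' b' c' := hQ
  have ab : ∀ e a b c a' b' c' : F, Q n d e a b c a' b' c' → a = 0 ∨ b = 0 := by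
    intro e a b c a' b' c' h
    by_contra h'
    rw [not_or] at h'
    exact step1 h1 hn hd h h'.1 h'.2
  have ac : ∀ e a b c a' b' c' : F, Q n d e a b c a' b' c' → a = 0 ∨ c = 0 := by
    intro e a b c a' b' c' h
    rcases ab _ _ _ _ _ _ _ h.swapYZ with h | h
    · exact Or.inl (neg_eq_zero.1 h)
    · exact Or.inr h
  have bc : ∀ e a b c a' b' c' : F, Q n d e a b c a' b' c' → b = 0 ∨ c = 0 := by
    intro e a b c a' b' c' h
    rcases ac _ _ _ _ _ _ _ h.swapXY with h | h
    · exact Or.inl h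
    · exact Or.inr (neg_eq_zero.1 h)
  have sa : ∀ e a a' b' c' : F, Q n d e a 0 0 a' b' c' → a = 0 := by
    intro e a a' b' c' h
    exact (step3' h2 hn hd h).2
  have sb : ∀ e b a' b' c' : F, Q n d e 0 b 0 a' b' c' → b = 0 := by
    intro e b a' b' c' h
    have h := h.swapXY
    rw [neg_zero] at h
    exact sa _ _ _ _ _ h
  have sc : ∀ e c a' b' c' : F, Q n d e 0 0 c a' b' c' → c = 0 := by
    intro e c a' b' c' h
    have h := h.swapYZ
    rw [neg_zero] at h
    exact sb _ _ _ _ _ h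
  have hz : a = 0 ∧ b = 0 ∧ c = 0 := by
    rcases ab _ _ _ _ _ _ _ q0 with h | h
    · subst h
      rcases bc _ _ _ _ _ _ _ q0 with h | h
      · subst h
        exact ⟨rfl, rfl, sc _ _ _ _ _ q0⟩
      · subst h
        exact ⟨rfl, sb _ _ _ _ _ q0, rfl⟩
    · subst h
      rcases ac _ _ _ _ _ _ _ q0 with h | h
      · subst h
        exact ⟨rfl, rfl, sc _ _ _ _ _ q0⟩
      · subst h
        exact ⟨sa _ _ _ _ _ q0, rfl, rfl⟩
  obtain ⟨rfl, rfl, rfl⟩ := hz
  have he : e = 0 := (step3' h2 hn hd q0).1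
  subst he
  have sa' : ∀ a' b' c' : F, Q n d 0 0 0 0 a' b' c' → a' = 0 := by
    intro a' b' c' h
    exact step5 h1 hn hd h
  have sb' : ∀ a' b' c' : F, Q n d 0 0 0 0 a' b' c' → b' = 0 := by
    intro a' b' c' h
    have h := h.swapXY
    rw [neg_zero, add_zero] at h
    exact sa' _ _ _ h
  have sc' : ∀ a' b' c' : F, Q n d 0 0 0 0 a' b' c' → c' = 0 := by
    intro a' b' c' h
    have h := h.swapYZ
    rw [neg_zero, add_zero] at h
    exact sb' _ _ _ h
  have ha := sa' _ _ _ q0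
  have hb := sb' _ _ _ q0
  have hc := sc' _ _ _ q0
  subst ha
  subst hb
  subst hc
  exact step6 h1 hd q0

end Pool.Agent.H872.FF_DI
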