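import Pool.Agent.H402.FF.Stm

/-!
# FF/SEQ (helper872 for helper402, MP_b48e27_co)

Sequences from three ultrafilters.
-/

set_option autoImplicit false

open Filter

namespace Pool.Agent.H872.FF_SEQ

open Pool.Agent.H402.FF

section lim

variable {α K : Type*} [Finite K]

theorem exists_lim (w : Ultrafilter α) (g : α → K) : ∃ c, ∀ᶠ x in (w : Filter α), g x = c := by
  obtain ⟨c, hc⟩ := Ultrafilter.eq_pure_of_finite (w.map g)
  refine ⟨c, ?_⟩
  have h : ({c} : Set K) ∈ (w.map g) := by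
    rw [hc]
    exact Ultrafilter.mem_pure.2 rfl
  exact Ultrafilter.mem_map.1 h

/-- the limit of a function with finitely many values along an ultrafilter -/
noncomputable def ulim (w : Ultrafilter α) (g : α → K) : K := (exists_lim w g).choose

theorem ulim_spec (w : Ultrafilter α) (g : α → K) :
    ∀ᶠ x in (w : Filter α), g x = ulim w g := (exists_lim w g).choose_spec

theorem ulim_eq (w : Ultrafilter α) (g : α → K) (c : K)
    (h : ∀ᶠ x in (w : Filter α), g x = c) : ulim w g = c := by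
  obtain ⟨x, hx1, hx2⟩ := ((ulim_spec w g).and h).exists
  rw [← hx1, hx2]

theorem ulim_map {β : Type*} (w : Ultrafilter α) (f : α → β) (g : β → K) :
    ulim (w.map f) g = ulim w (fun x => g (f x)) := by
  apply ulim_eq
  exact ulim_spec w (fun x => g (f x))

theorem ulim_apply {E : Type*} [Finite E] (w : Ultrafilter α) (g : α → E → K) (e : E) :
    ulim w g e = ulim w (fun x => g x e) := by
  symm
  apply ulim_eq
  filter_upwards [ulim_spec w g] with x hx
  rw [hx]

end lim

section ramsey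

variable {Ω K : Type*} [Finite K]

theorem exists_seq (w : Ultrafilter Ω) (A : Set Ω) (hA : ∀ᶠ x in (w : Filter Ω), x ∈ A)
    (G : Ω → Ω → Ω → K) :
    ∃ f : ℕ → Ω, (∀ n, f n ∈ A) ∧ ∀ a b c, a < b → b < c →
      G (f a) (f b) (f c) = ulim w (fun x => ulim w (fun y => ulim w (fun z => G x y z))) := by
  classical
  have hn : ∀ S : Finset Ω, ∃ z : Ω, z ∈ A ∧
      (∀ x ∈ S, ∀ y ∈ S, G x y z = ulim w (fun z => G x y z)) ∧
      (∀ x ∈ S, ulim w (fun z' => G x z z') = ulim w (fun y => ulim w (fun z => G x y z))) ∧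
      (ulim w (fun y => ulim w (fun z' => G z y z')) =
        ulim w (fun x => ulim w (fun y => ulim w (fun z => G x y z)))) := by
    intro S
    have h1 : ∀ᶠ z in (w : Filter Ω), ∀ x ∈ S, ∀ y ∈ S,
        G x y z = ulim w (fun z => G x y z) := by
      rw [Filter.eventually_all_finset]
      intro x _
      rw [Filter.eventually_all_finset]
      intro y _
      exact ulim_spec w (fun z => G x y z)
    have h2 : ∀ᶠ z in (w : Filter Ω), ∀ x ∈ S,
        ulim w (fun z' => G x z z') = ulim w (fun y => ulim w (fun z => G x y z)) := by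
      rw [Filter.eventually_all_finset]
      intro x _
      exact ulim_spec w (fun y => ulim w (fun z => G x y z))
    have h3 : ∀ᶠ z in (w : Filter Ω), ulim w (fun y => ulim w (fun z' => G z y z')) =
        ulim w (fun x => ulim w (fun y => ulim w (fun z => G x y z))) :=
      ulim_spec w (fun x => ulim w (fun y => ulim w (fun z => G x y z)))
    obtain ⟨z, hz⟩ := (hA.and (h1.and (h2.and h3))).exists
    exact ⟨z, hz.1, hz.2.1, hz.2.2.1, hz.2.2.2⟩
  choose next hnA hn3 hn2 hn1 using hn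
  let S : ℕ → Finset Ω := fun n => Nat.rec ∅ (fun _ S => insert (next S) S) n
  have hS : ∀ n, S (n + 1) = insert (next (S n)) (S n) := fun n => rfl
  have hmem : ∀ a m, a < m → next (S a) ∈ S m := by
    intro a m ham
    induction m with
    | zero => omega
    | succ m ih =>
      rw [hS]
      rcases Nat.lt_succ_iff_lt_or_eq.1 ham with h | h
      · exact Finset.mem_insert_of_mem (ih h)
      · rw [h]
        exact Finset.mem_insert_self _ _
  refine ⟨fun n => next (S n), fun n => hnA _, ?_⟩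
  intro a b c hab hbc
  rw [hn3 (S c) _ (hmem a c (hab.trans hbc)) _ (hmem b c hbc),
    hn2 (S b) _ (hmem a b hab), hn1 (S a)]

end ramsey

/-- positions of the three indices -/
def posf : Ordering → Ordering → Ordering → Fin 3 × Fin 3 × Fin 3
  | .eq, .eq, _ => (0, 0, 0)
  | .lt, .lt, .eq => (0, 1, 1)
  | .gt, .gt, .eq => (1, 0, 0)
  | .eq, .lt, _ => (0, 0, 1)
  | .eq, .gt, _ => (1, 1, 0)
  | .lt, .eq, _ => (0, 1, 0)
  | .gt, .eq, _ => (1, 0, 1)
  | .lt, .lt, .lt => (0, 1, 2)
  | .lt, .lt, .gt => (0, 2, 1)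
  | .gt, .lt, _ => (1, 0, 2)
  | .gt, .gt, .lt => (2, 0, 1)
  | .lt, .gt, _ => (1, 2, 0)
  | .gt, .gt, .gt => (2, 1, 0)

/-- one of three elements -/
def sel {Ω : Type*} (x y z : Ω) (i : Fin 3) : Ω :=
  match i with
  | 0 => x
  | 1 => y
  | 2 => z

theorem sel_map {Ω Ω' : Type*} (f : Ω → Ω') (x y z : Ω) (i : Fin 3) :
    sel (f x) (f y) (f z) i = f (sel x y z i) := by
  match i with
  | 0 => rfl
  | 1 => rfl
  | 2 => rfl

theorem exists_pos (i j k : ℕ) : ∃ a b c : ℕ, a < b ∧ b < c ∧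
    sel a b c (posf (compare i j) (compare i k) (compare j k)).1 = i ∧
    sel a b c (posf (compare i j) (compare i k) (compare j k)).2.1 = j ∧
    sel a b c (posf (compare i j) (compare i k) (compare j k)).2.2 = k := by
  rcases Nat.lt_trichotomy i j with h1 | h1 | h1
  · rcases Nat.lt_trichotomy i k with h2 | h2 | h2
    · rcases Nat.lt_trichotomy j k with h3 | h3 | h3
      · rw [compare_lt_iff_lt.2 h1, compare_lt_iff_lt.2 h2, compare_lt_iff_lt.2 h3]
        exact ⟨i, j, k, h1, h3, rfl, rfl, rfl⟩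
      · rw [compare_lt_iff_lt.2 h1, compare_lt_iff_lt.2 h2, compare_eq_iff_eq.2 h3]
        exact ⟨i, j, j + 1, h1, Nat.lt_succ_self _, rfl, rfl, h3⟩
      · rw [compare_lt_iff_lt.2 h1, compare_lt_iff_lt.2 h2, compare_gt_iff_gt.2 h3]
        exact ⟨i, k, j, h2, h3, rfl, rfl, rfl⟩
    · have h3 : k < j := by omega
      rw [compare_lt_iff_lt.2 h1, compare_eq_iff_eq.2 h2, compare_gt_iff_gt.2 h3]
      exact ⟨i, j, j + 1, h1, Nat.lt_succ_self _, rfl, rfl, h2⟩
    · have h3 : k < j := by omega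
      rw [compare_lt_iff_lt.2 h1, compare_gt_iff_gt.2 h2, compare_gt_iff_gt.2 h3]
      exact ⟨k, i, j, h2, h1, rfl, rfl, rfl⟩
  · rcases Nat.lt_trichotomy i k with h2 | h2 | h2
    · have h3 : j < k := by omega
      rw [compare_eq_iff_eq.2 h1, compare_lt_iff_lt.2 h2, compare_lt_iff_lt.2 h3]
      exact ⟨i, k, k + 1, h2, Nat.lt_succ_self _, rfl, h1, rfl⟩
    · have h3 : j = k := by omega
      rw [compare_eq_iff_eq.2 h1, compare_eq_iff_eq.2 h2, compare_eq_iff_eq.2 h3]
      exact ⟨i, i + 1, i + 2, Nat.lt_succ_self _, Nat.lt_succ_self _, rfl, h1, h2⟩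
    · have h3 : k < j := by omega
      rw [compare_eq_iff_eq.2 h1, compare_gt_iff_gt.2 h2, compare_gt_iff_gt.2 h3]
      exact ⟨k, i, i + 1, h2, Nat.lt_succ_self _, rfl, h1, rfl⟩
  · rcases Nat.lt_trichotomy i k with h2 | h2 | h2
    · have h3 : j < k := by omega
      rw [compare_gt_iff_gt.2 h1, compare_lt_iff_lt.2 h2, compare_lt_iff_lt.2 h3]
      exact ⟨j, i, k, h1, h2, rfl, rfl, rfl⟩
    · have h3 : j < k := by omega
      rw [compare_gt_iff_gt.2 h1, compare_eq_iff_eq.2 h2, compare_lt_iff_lt.2 h3]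
      exact ⟨j, i, i + 1, h1, Nat.lt_succ_self _, rfl, rfl, h2⟩
    · rcases Nat.lt_trichotomy j k with h3 | h3 | h3
      · rw [compare_gt_iff_gt.2 h1, compare_gt_iff_gt.2 h2, compare_lt_iff_lt.2 h3]
        exact ⟨j, k, i, h3, h2, rfl, rfl, rfl⟩
      · rw [compare_gt_iff_gt.2 h1, compare_gt_iff_gt.2 h2, compare_eq_iff_eq.2 h3]
        exact ⟨j, i, i + 1, h1, Nat.lt_succ_self _, rfl, rfl, h3⟩
      · rw [compare_gt_iff_gt.2 h1, compare_gt_iff_gt.2 h2, compare_gt_iff_gt.2 h3]
        exact ⟨k, j, i, h3, h1, rfl, rfl, rfl⟩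

section main

theorem indep {Ω A κ : Type*} [Finite κ] (w : Ultrafilter Ω) (P P' : Ω → A)
    (h : w.map P = w.map P') (T : A → Ω → Ω → κ) (i j k : Fin 3) (hij : i ≠ j) (hik : i ≠ k) :
    ulim w (fun x => ulim w (fun y => ulim w (fun z =>
      T (P (sel x y z i)) (sel x y z j) (sel x y z k)))) =
    ulim w (fun x => ulim w (fun y => ulim w (fun z =>
      T (P' (sel x y z i)) (sel x y z j) (sel x y z k)))) := by
  have hL : ∀ H : A → κ, ulim w (fun x => H (P x)) = ulim w (fun x => H (P' x)) := by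
    intro H
    rw [← ulim_map w P H, ← ulim_map w P' H, h]
  match i, hij, hik with
  | 0, hij, hik =>
    have h0 : ∀ j : Fin 3, 0 ≠ j → ∃ g : Ω → Ω → Ω, ∀ x y z, sel x y z j = g y z := by
      intro j hj
      match j, hj with
      | 0, hj => exact absurd rfl hj
      | 1, _ => exact ⟨fun y _ => y, fun _ _ _ => rfl⟩
      | 2, _ => exact ⟨fun _ z => z, fun _ _ _ => rfl⟩
    obtain ⟨g, hg⟩ := h0 j hij
    obtain ⟨g', hg'⟩ := h0 k hik
    simp only [hg, hg']
    exact hL (fun a => ulim w (fun y => ulim w (fun z => T a (g y z) (g' y z))))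
  | 1, hij, hik =>
    have h0 : ∀ j : Fin 3, 1 ≠ j → ∃ g : Ω → Ω → Ω, ∀ x y z, sel x y z j = g x z := by
      intro j hj
      match j, hj with
      | 0, _ => exact ⟨fun x _ => x, fun _ _ _ => rfl⟩
      | 1, hj => exact absurd rfl hj
      | 2, _ => exact ⟨fun _ z => z, fun _ _ _ => rfl⟩
    obtain ⟨g, hg⟩ := h0 j hij
    obtain ⟨g', hg'⟩ := h0 k hik
    simp only [hg, hg']
    congr 1
    funext x
    exact hL (fun a => ulim w (fun z => T a (g x z) (g' x z)))
  | 2, hij, hik =>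
    have h0 : ∀ j : Fin 3, 2 ≠ j → ∃ g : Ω → Ω → Ω, ∀ x y z, sel x y z j = g x y := by
      intro j hj
      match j, hj with
      | 0, _ => exact ⟨fun x _ => x, fun _ _ _ => rfl⟩
      | 1, _ => exact ⟨fun _ y => y, fun _ _ _ => rfl⟩
      | 2, hj => exact absurd rfl hj
    obtain ⟨g, hg⟩ := h0 j hij
    obtain ⟨g', hg'⟩ := h0 k hik
    simp only [hg, hg']
    congr 1
    funext x
    congr 1
    funext y
    exact hL (fun a => T a (g x y) (g' x y))

variable {X Y Z κ : Type} [Finite κ]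

/-- the table of the values of three stages -/
def F3 (t : X → Y → Z → κ) (x y z : (Bool → X) × (Bool → Y) × (Bool → Z)) :
    (Fin 3 × Fin 3 × Fin 3 × Bool × Bool × Bool) → κ :=
  fun e => t ((sel x y z e.1).1 e.2.2.2.1) ((sel x y z e.2.1).2.1 e.2.2.2.2.1)
    ((sel x y z e.2.2.1).2.2 e.2.2.2.2.2)

/-- the iterated limit of one entry of the table -/
theorem lim3_apply (w : Ultrafilter ((Bool → X) × (Bool → Y) × (Bool → Z)))
    (t : X → Y → Z → κ) (e : Fin 3 × Fin 3 × Fin 3 × Bool × Bool × Bool) :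
    ulim w (fun x => ulim w (fun y => ulim w (fun z => F3 t x y z))) e =
      ulim w (fun x => ulim w (fun y => ulim w (fun z => F3 t x y z e))) := by
  rw [ulim_apply]
  congr 1
  funext x
  rw [ulim_apply]
  congr 1
  funext y
  rw [ulim_apply]

end main

theorem holds : S_seq := by
  intro X Y Z κ _ t D p q r hpqr
  -- the filter
  let box : ((Bool → X) × (Bool → Y) × (Bool → Z)) → Bool → Bool → Bool → κ :=
    fun ω s u r => t (ω.1 s) (ω.2.1 u) (ω.2.2 r)
  let B : Set X → Set Y → Set Z → Set ((Bool → X) × (Bool → Y) × (Bool → Z)) := fun P Q R =>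
    {ω | (∀ s, ω.1 s ∈ P) ∧ (∀ s, ω.2.1 s ∈ Q) ∧ (∀ s, ω.2.2 s ∈ R) ∧ ¬ D (box ω)}
  let F : Filter ((Bool → X) × (Bool → Y) × (Bool → Z)) :=
    { sets := {S | ∃ P ∈ p, ∃ Q ∈ q, ∃ R ∈ r, B P Q R ⊆ S}
      univ_sets := ⟨Set.univ, Filter.univ_mem, Set.univ, Filter.univ_mem, Set.univ,
        Filter.univ_mem, Set.subset_univ _⟩
      sets_of_superset := by
        rintro S S' ⟨P, hP, Q, hQ, R, hR, h⟩ hS
        exact ⟨P, hP, Q, hQ, R, hR, h.trans hS⟩
      inter_sets := by
        rintro S S' ⟨P, hP, Q, hQ, R, hR, h⟩ ⟨P', hP', Q', hQ', R', hR', h'⟩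
        refine ⟨P ∩ P', Filter.inter_mem hP hP', Q ∩ Q', Filter.inter_mem hQ hQ', R ∩ R',
          Filter.inter_mem hR hR', ?_⟩
        rintro ω ⟨h1, h2, h3, h4⟩
        exact ⟨h ⟨fun s => (h1 s).1, fun s => (h2 s).1, fun s => (h3 s).1, h4⟩,
          h' ⟨fun s => (h1 s).2, fun s => (h2 s).2, fun s => (h3 s).2, h4⟩⟩ }
  have hF : F.NeBot := by
    rw [← Filter.forall_mem_nonempty_iff_neBot]
    rintro S ⟨P, hP, Q, hQ, R, hR, h⟩
    obtain ⟨x, y, z, hx, hy, hz, hD⟩ := hpqr P hP Q hQ R hR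
    exact ⟨(x, y, z), h ⟨hx, hy, hz, hD⟩⟩
  let w : Ultrafilter ((Bool → X) × (Bool → Y) × (Bool → Z)) := Ultrafilter.of F
  have hw : (w : Filter ((Bool → X) × (Bool → Y) × (Bool → Z))) ≤ F := Ultrafilter.of_le F
  have hwp : ∀ s, w.map (fun ω => ω.1 s) = p := by
    intro s
    apply Ultrafilter.eq_of_le
    intro P hP
    rw [Ultrafilter.mem_coe, Ultrafilter.mem_map]
    apply hw
    exact ⟨P, hP, Set.univ, Filter.univ_mem, Set.univ, Filter.univ_mem, fun ω hω => hω.1 s⟩
  have hwq : ∀ s, w.map (fun ω => ω.2.1 s) = q := by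
    intro s
    apply Ultrafilter.eq_of_le
    intro P hP
    rw [Ultrafilter.mem_coe, Ultrafilter.mem_map]
    apply hw
    exact ⟨Set.univ, Filter.univ_mem, P, hP, Set.univ, Filter.univ_mem, fun ω hω => hω.2.1 s⟩
  have hwr : ∀ s, w.map (fun ω => ω.2.2 s) = r := by
    intro s
    apply Ultrafilter.eq_of_le
    intro P hP
    rw [Ultrafilter.mem_coe, Ultrafilter.mem_map]
    apply hw
    exact ⟨Set.univ, Filter.univ_mem, Set.univ, Filter.univ_mem, P, hP,
      fun ω hω => hω.2.2.1 s⟩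
  have hwA : ∀ᶠ ω in (w : Filter ((Bool → X) × (Bool → Y) × (Bool → Z))),
      ω ∈ {ω | ¬ D (box ω)} := by
    apply hw
    exact ⟨Set.univ, Filter.univ_mem, Set.univ, Filter.univ_mem, Set.univ, Filter.univ_mem,
      fun ω hω => hω.2.2.2⟩
  obtain ⟨f, hfA, hf⟩ := exists_seq w _ hwA (F3 t)
  let V0 := ulim w (fun x => ulim w (fun y => ulim w (fun z => F3 t x y z)))
  have hV0 : ∀ i j k s u r, V0 (i, j, k, s, u, r) =
      ulim w (fun x => ulim w (fun y => ulim w (fun z => F3 t x y z (i, j, k, s, u, r)))) :=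
    fun i j k s u r => lim3_apply w t (i, j, k, s, u, r)
  have hval : ∀ (i j k : ℕ) (s u r : Bool), t ((f i).1 s) ((f j).2.1 u) ((f k).2.2 r) =
      V0 ((posf (compare i j) (compare i k) (compare j k)).1,
        (posf (compare i j) (compare i k) (compare j k)).2.1,
        (posf (compare i j) (compare i k) (compare j k)).2.2, s, u, r) := by
    intro i j k s u r
    obtain ⟨a, b, c, hab, hbc, h1, h2, h3⟩ := exists_pos i j k
    have h := hf a b c hab hbc
    have h' : F3 t (f a) (f b) (f c) ((posf (compare i j) (compare i k) (compare j k)).1,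
        (posf (compare i j) (compare i k) (compare j k)).2.1,
        (posf (compare i j) (compare i k) (compare j k)).2.2, s, u, r) =
        t ((f i).1 s) ((f j).2.1 u) ((f k).2.2 r) := by
      unfold F3
      rw [sel_map f, sel_map f, sel_map f, h1, h2, h3]
    rw [← h', h]
  have hne : ∀ (i j k : ℕ),
      (i ≠ j → (posf (compare i j) (compare i k) (compare j k)).1 ≠
        (posf (compare i j) (compare i k) (compare j k)).2.1) ∧
      (i ≠ k → (posf (compare i j) (compare i k) (compare j k)).1 ≠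
        (posf (compare i j) (compare i k) (compare j k)).2.2) ∧
      (j ≠ k → (posf (compare i j) (compare i k) (compare j k)).2.1 ≠
        (posf (compare i j) (compare i k) (compare j k)).2.2) := by
    intro i j k
    obtain ⟨a, b, c, _, _, h1, h2, h3⟩ := exists_pos i j k
    refine ⟨fun h h' => h ?_, fun h h' => h ?_, fun h h' => h ?_⟩
    · rw [← h1, h', h2]
    · rw [← h1, h', h3]
    · rw [← h2, h', h3]
  -- independence
  have hindx : ∀ (i j k : Fin 3) (s s' u r : Bool), i ≠ j → i ≠ k →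
      V0 (i, j, k, s, u, r) = V0 (i, j, k, s', u, r) := by
    intro i j k s s' u r hij hik
    rw [hV0, hV0]
    exact indep w (fun ω => ω.1 s) (fun ω => ω.1 s') ((hwp s).trans (hwp s').symm)
      (fun a ω ω' => t a (ω.2.1 u) (ω'.2.2 r)) i j k hij hik
  have hindy : ∀ (i j k : Fin 3) (s u u' r : Bool), j ≠ i → j ≠ k →
      V0 (i, j, k, s, u, r) = V0 (i, j, k, s, u', r) := by
    intro i j k s u u' r hij hik
    rw [hV0, hV0]
    exact indep w (fun ω => ω.2.1 u) (fun ω => ω.2.1 u') ((hwq u).trans (hwq u').symm)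
      (fun a ω ω' => t (ω.1 s) a (ω'.2.2 r)) j i k hij hik
  have hindz : ∀ (i j k : Fin 3) (s u r r' : Bool), k ≠ i → k ≠ j →
      V0 (i, j, k, s, u, r) = V0 (i, j, k, s, u, r') := by
    intro i j k s u r r' hij hik
    rw [hV0, hV0]
    exact indep w (fun ω => ω.2.2 r) (fun ω => ω.2.2 r') ((hwr r).trans (hwr r').symm)
      (fun a ω ω' => t (ω.1 s) (ω'.2.1 u) a) k i j hij hik
  refine ⟨fun n => (f n).1, fun n => (f n).2.1, fun n => (f n).2.2,
    fun o1 o2 o3 s u r => V0 ((posf o1 o2 o3).1, (posf o1 o2 o3).2.1, (posf o1 o2 o3).2.2, s, u, r),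
    hval, ?_, ?_, ?_,
    hfA⟩
  · intro i j k s s' u r hij hik
    dsimp only
    rw [hval, hval]
    exact hindx _ _ _ _ _ _ _ ((hne i j k).1 hij) ((hne i j k).2.1 hik)
  · intro i j k s u u' r hij hik
    dsimp only
    rw [hval, hval]
    exact hindy _ _ _ _ _ _ _ ((hne i j k).1 hij.symm).symm ((hne i j k).2.2 hik)
  · intro i j k s u r r' hij hik
    dsimp only
    rw [hval, hval]
    exact hindz _ _ _ _ _ _ _ ((hne i j k).2.1 hij.symm).symm ((hne i j k).2.2 hik.symm).symm

end Pool.Agent.H872.FF_SEQ
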