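import Pool.Agent.H402.HD.Stm

/-!
# HD_AV: the avoidance lemma
-/

set_option autoImplicit false

open Finset

namespace Pool.Agent.H872.HD_AV

open Pool.Agent.H402.HD

section gen

variable {F : Type*} [Field F] {V W : Type*} [AddCommGroup V] [Module F V] [AddCommGroup W]
  [Module F W]

/-- linear independence is an open condition along a line, over an infinite field -/
theorem open_line [Infinite F] {o : Type} [Fintype o] (x y : o → W)
    (h : LinearIndependent F x)
    (hd : ∀ t : F, t ≠ 0 → ¬ LinearIndependent F (fun i => x i + t • y i)) : False := by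
  classical
  have hker : LinearMap.ker (Fintype.linearCombination F x) = ⊥ := by
    rw [LinearMap.ker_eq_bot']
    intro c hc
    rw [Fintype.linearCombination_apply] at hc
    exact funext fun i => Fintype.linearIndependent_iff.1 h c hc i
  obtain ⟨g, hg⟩ := LinearMap.exists_leftInverse_of_injective _ hker
  have hgx : ∀ i j, g (x i) j = if i = j then 1 else 0 := by
    intro i j
    have h1 : Fintype.linearCombination F x (Pi.single i 1) = x i := by
      rw [Fintype.linearCombination_apply_single, one_smul]
    have h2 := LinearMap.congr_fun hg (Pi.single i 1)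
    rw [LinearMap.comp_apply, h1] at h2
    rw [h2]
    simp [Pi.single_apply, eq_comm]
  let B : Matrix o o F := fun i j => g (y i) j
  have hdet : ∀ t : F, t ≠ 0 → (1 + t • B).det = 0 := by
    intro t ht
    obtain ⟨c, hc, i, hi⟩ := Fintype.not_linearIndependent_iff.1 (hd t ht)
    apply Matrix.exists_vecMul_eq_zero_iff.1
    refine ⟨c, fun h => hi (congrFun h i), ?_⟩
    funext j
    have h1 := congrFun (congrArg g hc) j
    rw [map_sum, map_zero, Finset.sum_apply] at h1
    rw [Pi.zero_apply] at h1
    rw [Matrix.vecMul, Pi.zero_apply, ← h1]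
    unfold dotProduct
    refine Finset.sum_congr rfl fun i _ => ?_
    rw [map_smul, map_add, map_smul]
    simp only [Pi.smul_apply, Pi.add_apply, hgx, smul_eq_mul, Matrix.add_apply, Matrix.smul_apply,
      Matrix.one_apply, B]
  have heval : ∀ t : F, Polynomial.eval t
      (1 + (Polynomial.X : Polynomial F) • B.map Polynomial.C).det = (1 + t • B).det := by
    intro t
    rw [← Polynomial.coe_evalRingHom, RingHom.map_det]
    congr 1
    ext i j
    by_cases hij : i = j
    · subst hij
      simp only [RingHom.mapMatrix_apply, Matrix.map_apply, Matrix.add_apply, Matrix.smul_apply,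
        Matrix.one_apply_eq, smul_eq_mul, Polynomial.coe_evalRingHom, Polynomial.eval_add,
        Polynomial.eval_mul, Polynomial.eval_X, Polynomial.eval_C, Polynomial.eval_one]
    · simp only [RingHom.mapMatrix_apply, Matrix.map_apply, Matrix.add_apply, Matrix.smul_apply,
        Matrix.one_apply_ne hij, smul_eq_mul, Polynomial.coe_evalRingHom, Polynomial.eval_add,
        Polynomial.eval_mul, Polynomial.eval_X, Polynomial.eval_C, Polynomial.eval_zero]
  have hne : (1 + (Polynomial.X : Polynomial F) • B.map Polynomial.C).det ≠ 0 := by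
    intro h0
    have := heval 0
    rw [h0, zero_smul, add_zero, Matrix.det_one, Polynomial.eval_zero] at this
    exact zero_ne_one this
  have hinf : Set.Infinite ({0}ᶜ : Set F) := (Set.finite_singleton 0).infinite_compl
  have hroots : ({0}ᶜ : Set F) ⊆
      {t | Polynomial.IsRoot (1 + (Polynomial.X : Polynomial F) • B.map Polynomial.C).det t} := by
    intro t ht
    show Polynomial.eval t _ = 0
    rw [heval t]
    exact hdet t ht
  exact hinf (Set.Finite.subset (Polynomial.finite_setOfPred_isRoot hne) hroots)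

/-- the core for an infinite field -/
theorem core_inf [Infinite F] [FiniteDimensional F W] (e : ℕ) (φ : Fin e → V →ₗ[F] W) (u₀ : V)
    (L₀ : Submodule F V)
    (h : ∀ v ∈ L₀, ∃ c : Fin e → F, c ≠ 0 ∧ ∑ j, c j • φ j (u₀ + v) = 0) :
    ∃ c : Fin e → F, c ≠ 0 ∧ ∃ R : Submodule F W, Module.finrank F R ≤ e ∧
      ∀ v ∈ L₀, (∑ j, c j • φ j v) ∈ R := by
  classical
  let rk : V → ℕ := fun u => Module.finrank F (Submodule.span F (Set.range fun j => φ j u))
  have hrk : ∀ u, rk u ≤ e := by
    intro u
    have := finrank_range_le_card (R := F) (fun j : Fin e => φ j u)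
    rw [Fintype.card_fin] at this
    exact this
  obtain ⟨v₁, hv₁, hmax⟩ : ∃ v₁ ∈ L₀, ∀ v ∈ L₀, rk (u₀ + v) ≤ rk (u₀ + v₁) := by
    let S : Set ℕ := {n | ∃ v ∈ L₀, rk (u₀ + v) = n}
    have hne : S.Nonempty := ⟨_, 0, L₀.zero_mem, rfl⟩
    have hbdd : BddAbove S := ⟨e, by rintro n ⟨v, _, rfl⟩; exact hrk _⟩
    obtain ⟨v₁, hv₁, hv₁'⟩ := Nat.sSup_mem hne hbdd
    refine ⟨v₁, hv₁, fun v hv => ?_⟩
    rw [hv₁']
    exact le_csSup hbdd ⟨v, hv, rfl⟩
  obtain ⟨c, hc, hc0⟩ := h v₁ hv₁
  refine ⟨c, hc, Submodule.span F (Set.range fun j => φ j (u₀ + v₁)), hrk _, fun v hv => ?_⟩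
  by_contra hcon
  obtain ⟨κ, a, ha, hspan, hli⟩ := exists_linearIndependent' F (fun j => φ j (u₀ + v₁))
  have : Fintype κ := Fintype.ofInjective a ha
  have hcard : Fintype.card κ = rk (u₀ + v₁) := by
    have := finrank_span_eq_card hli
    rw [← this, hspan]
  let x : Option κ → W := fun o => o.elim (∑ j, c j • φ j v) (fun k => φ (a k) (u₀ + v₁))
  let y : Option κ → W := fun o => o.elim 0 (fun k => φ (a k) v)
  have hx : LinearIndependent F x := by
    rw [linearIndependent_option]
    refine ⟨hli, ?_⟩
    show (∑ j, c j • φ j v) ∉ Submodule.span F (Set.range fun k => φ (a k) (u₀ + v₁))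
    have : (Submodule.span F (Set.range fun k => φ (a k) (u₀ + v₁))) =
      Submodule.span F (Set.range fun j => φ j (u₀ + v₁)) := hspan
    rw [this]
    exact hcon
  refine open_line x y hx fun t ht hli' => ?_
  have hmem : ∀ o, x o + t • y o ∈ Submodule.span F (Set.range fun j => φ j (u₀ + (v₁ + t • v))) := by
    intro o
    cases o with
    | none =>
      show (∑ j, c j • φ j v) + t • (0 : W) ∈ _
      have e1 : (∑ j, c j • φ j v) + t • (0 : W) = t⁻¹ • ∑ j, c j • φ j (u₀ + (v₁ + t • v)) := by
        have e2 : ∑ j, c j • φ j (u₀ + (v₁ + t • v)) = t • ∑ j, c j • φ j v := by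
          have e3 : ∀ j, c j • φ j (u₀ + (v₁ + t • v)) =
              c j • φ j (u₀ + v₁) + t • (c j • φ j v) := by
            intro j
            rw [← add_assoc, map_add, map_smul, smul_add, smul_comm]
          rw [Finset.sum_congr rfl fun j _ => e3 j, Finset.sum_add_distrib, hc0, zero_add,
            Finset.smul_sum]
        rw [e2, smul_smul, inv_mul_cancel₀ ht, one_smul, smul_zero, add_zero]
      rw [e1]
      refine Submodule.smul_mem _ _ (Submodule.sum_mem _ fun j _ => Submodule.smul_mem _ _ ?_)
      exact Submodule.subset_span ⟨j, rfl⟩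
    | some k =>
      show φ (a k) (u₀ + v₁) + t • φ (a k) v ∈ _
      refine Submodule.subset_span ⟨a k, ?_⟩
      show φ (a k) (u₀ + (v₁ + t • v)) = _
      rw [← add_assoc, map_add, map_smul]
  have h1 := hmax (v₁ + t • v) (L₀.add_mem hv₁ (L₀.smul_mem t hv))
  have h2 : Fintype.card (Option κ) ≤ rk (u₀ + (v₁ + t • v)) := by
    have h3 := finrank_span_eq_card hli'
    rw [← h3]
    apply Submodule.finrank_mono
    rw [Submodule.span_le]
    rintro _ ⟨o, rfl⟩
    exact hmem o
  rw [Fintype.card_option, hcard] at h2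
  omega

/-- dimension of the range from the dimension of the image of a subspace of small codimension -/
theorem range_le [FiniteDimensional F V] [FiniteDimensional F W] (f : V →ₗ[F] W) {m : ℕ}
    (ψ : Fin m → V →ₗ[F] F) (n : ℕ)
    (h : Module.finrank F ((LinearMap.ker (LinearMap.pi ψ)).map f) ≤ n) :
    Module.finrank F (LinearMap.range f) ≤ n + m := by
  obtain ⟨C, hC⟩ := Submodule.exists_isCompl (LinearMap.ker (LinearMap.pi ψ))
  have h1 : Module.finrank F C ≤ m := by
    have e1 := Submodule.finrank_add_eq_of_isCompl hC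
    have e2 := LinearMap.finrank_range_add_finrank_ker (LinearMap.pi ψ)
    have e3 := Submodule.finrank_le (LinearMap.range (LinearMap.pi ψ))
    rw [Module.finrank_fin_fun] at e3
    omega
  have h2 : LinearMap.range f = (LinearMap.ker (LinearMap.pi ψ)).map f ⊔ C.map f := by
    rw [← Submodule.map_sup, hC.sup_eq_top, Submodule.map_top]
  rw [h2]
  have h3 := Submodule.finrank_add_le_finrank_add_finrank ((LinearMap.ker (LinearMap.pi ψ)).map f)
    (C.map f)
  have h4 := Submodule.finrank_map_le f C
  omega

/-- dimension of a preimage -/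
theorem comap_le [FiniteDimensional F V] [FiniteDimensional F W] (f : V →ₗ[F] W)
    (Φ : Submodule F W) :
    Module.finrank F (Φ.comap f) ≤ Module.finrank F (LinearMap.ker f) + Module.finrank F Φ := by
  have e1 := LinearMap.finrank_range_add_finrank_ker (f.domRestrict (Φ.comap f))
  have e2 : Module.finrank F (LinearMap.range (f.domRestrict (Φ.comap f))) ≤
      Module.finrank F Φ := by
    apply Submodule.finrank_mono
    rintro _ ⟨x, rfl⟩
    exact x.2
  have e3 : Module.finrank F (LinearMap.ker (f.domRestrict (Φ.comap f))) ≤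
      Module.finrank F (LinearMap.ker f) := by
    let g : LinearMap.ker (f.domRestrict (Φ.comap f)) →ₗ[F] LinearMap.ker f :=
      { toFun := fun x => ⟨x.1.1, x.2⟩
        map_add' := fun _ _ => rfl
        map_smul' := fun _ _ => rfl }
    apply LinearMap.finrank_le_finrank_of_injective (f := g)
    intro x y hxy
    have := congrArg Subtype.val hxy
    exact Subtype.ext (Subtype.ext this)
  omega

end gen

theorem holds : S_av := by
  intro F _ ι κ _ _ e w m φ Φ ψ c₀ u₀ hΦ hu₀ h
  classical
  have hψ : ∀ v, v ∈ LinearMap.ker (LinearMap.pi ψ) ↔ ∀ i, ψ i v = 0 := by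
    intro v
    rw [LinearMap.mem_ker]
    exact ⟨fun h i => congrFun h i, fun h => funext h⟩
  rcases finite_or_infinite F with hF | hF
  · -- finite field
    have : Fintype F := Fintype.ofFinite F
    by_contra hcon
    push Not at hcon
    set n := Fintype.card ι with hn
    have hfr : Module.finrank F (ι → F) = n := Module.finrank_pi F
    set q := Fintype.card F with hq
    have hq1 : 1 < q := Fintype.one_lt_card
    have hcardsub : ∀ U : Submodule F (ι → F), Nat.card U = q ^ Module.finrank F U := by
      intro U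
      rw [Nat.card_eq_fintype_card]
      exact Module.card_eq_pow_finrank
    obtain ⟨c₁, hc₁, _⟩ := h u₀ hu₀
    have hn1 : e + w + m + 1 ≤ n := by
      have h1 := hcon c₁ hc₁
      have h2 := LinearMap.finrank_range_le (∑ j, c₁ j • φ j)
      omega
    -- the sets K c
    have hK : ∀ c : Fin e → F, c ≠ 0 →
        Nat.card (Φ.comap (∑ j, c j • φ j)) ≤ q ^ (n - e - m - 1) := by
      intro c hc
      rw [hcardsub]
      apply Nat.pow_le_pow_right (by omega)
      have h1 := hcon c hc
      have h2 := LinearMap.finrank_range_add_finrank_ker (∑ j, c j • φ j)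
      have h3 := comap_le (∑ j, c j • φ j) Φ
      omega
    have hL : q ^ (n - m) ≤ Nat.card (LinearMap.ker (LinearMap.pi ψ)) := by
      rw [hcardsub]
      apply Nat.pow_le_pow_right (by omega)
      have e2 := LinearMap.finrank_range_add_finrank_ker (LinearMap.pi ψ)
      have e3 := Submodule.finrank_le (LinearMap.range (LinearMap.pi ψ))
      rw [Module.finrank_fin_fun] at e3
      omega
    -- the injection
    have hmap : ∀ v : LinearMap.ker (LinearMap.pi ψ), ∃ c : Fin e → F, c ≠ 0 ∧
        (u₀ + v.1) ∈ Φ.comap (∑ j, c j • φ j) := by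
      intro v
      obtain ⟨c, hc, hc'⟩ := h (u₀ + v.1) (fun i => by
        rw [map_add, hu₀, (hψ v.1).1 v.2 i, add_zero])
      refine ⟨c, hc, ?_⟩
      rw [Submodule.mem_comap, LinearMap.sum_apply]
      exact hc'
    choose cc hcc hcc' using hmap
    have hinj : Nat.card (LinearMap.ker (LinearMap.pi ψ)) ≤
        Nat.card (Σ c : {c : Fin e → F // c ≠ 0}, Φ.comap (∑ j, c.1 j • φ j)) := by
      apply Nat.card_le_card_of_injective (fun v => (⟨⟨cc v, hcc v⟩, ⟨u₀ + v.1, hcc' v⟩⟩ :
        Σ c : {c : Fin e → F // c ≠ 0}, Φ.comap (∑ j, c.1 j • φ j)))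
      intro v v' hvv
      have h1 : u₀ + v.1 = u₀ + v'.1 := by
        have := congrArg (fun s : Σ c : {c : Fin e → F // c ≠ 0},
          Φ.comap (∑ j, c.1 j • φ j) => s.2.1) hvv
        exact this
      exact Subtype.ext (add_left_cancel h1)
    have hsum : Nat.card (Σ c : {c : Fin e → F // c ≠ 0}, Φ.comap (∑ j, c.1 j • φ j)) ≤
        q ^ e * q ^ (n - e - m - 1) := by
      rw [Nat.card_sigma]
      calc ∑ c : {c : Fin e → F // c ≠ 0}, Nat.card (Φ.comap (∑ j, c.1 j • φ j))
          ≤ ∑ c : {c : Fin e → F // c ≠ 0}, q ^ (n - e - m - 1) :=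
            Finset.sum_le_sum fun c _ => hK c.1 c.2
        _ = Fintype.card {c : Fin e → F // c ≠ 0} * q ^ (n - e - m - 1) := by
            rw [Finset.sum_const, Finset.card_univ, smul_eq_mul]
        _ ≤ q ^ e * q ^ (n - e - m - 1) := by
            apply Nat.mul_le_mul_right
            have := Fintype.card_subtype_le (fun c : Fin e → F => c ≠ 0)
            rw [Fintype.card_fun, Fintype.card_fin] at this
            exact this
    have hfin : q ^ (n - m) ≤ q ^ (n - m - 1) := by
      refine (hL.trans (hinj.trans hsum)).trans ?_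
      rw [← pow_add]
      apply Nat.pow_le_pow_right (by omega)
      omega
    have : n - m ≤ n - m - 1 := (Nat.pow_le_pow_iff_right hq1).1 hfin
    omega
  · -- infinite field
    have hex := core_inf (W := (κ → F) ⧸ Φ) e (fun j => Φ.mkQ ∘ₗ φ j) u₀
      (LinearMap.ker (LinearMap.pi ψ)) (by
        intro v hv
        obtain ⟨c, hc, hc'⟩ := h (u₀ + v) (fun i => by
          rw [map_add, hu₀, (hψ v).1 hv i, add_zero])
        refine ⟨c, hc, ?_⟩
        have h1 : ∑ j, c j • (Φ.mkQ ∘ₗ φ j) (u₀ + v) = Φ.mkQ (∑ j, c j • φ j (u₀ + v)) := by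
          rw [map_sum]
          exact Finset.sum_congr rfl fun j _ => by
            rw [LinearMap.comp_apply, map_smul]
        rw [h1, Submodule.mkQ_apply, Submodule.Quotient.mk_eq_zero]
        exact hc')
    obtain ⟨c, hc, R, hR, hcR⟩ := hex
    refine ⟨c, hc, ?_⟩
    have h1 : Module.finrank F
        ((LinearMap.ker (LinearMap.pi ψ)).map (∑ j, c j • φ j)) ≤ e + w := by
      have h2 : (LinearMap.ker (LinearMap.pi ψ)).map (∑ j, c j • φ j) ≤ R.comap Φ.mkQ := by
        rintro _ ⟨v, hv, rfl⟩
        rw [Submodule.mem_comap]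
        have h3 := hcR v hv
        have h4 : ∑ j, c j • (Φ.mkQ ∘ₗ φ j) v = Φ.mkQ ((∑ j, c j • φ j) v) := by
          rw [LinearMap.sum_apply, map_sum]
          exact Finset.sum_congr rfl fun j _ => by
            rw [LinearMap.comp_apply, LinearMap.smul_apply, map_smul]
        rwa [h4] at h3
      have h5 := Submodule.finrank_mono h2
      have h6 := comap_le Φ.mkQ R
      rw [Submodule.ker_mkQ] at h6
      omega
    exact range_le _ ψ _ h1

end Pool.Agent.H872.HD_AV
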