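import Mathlib
import Pool.Agent.H576.RD.Stm
import Pool.Agent.H576.RD.Move

/-!
# RD (helper872 for helper576, MP_41c3f3_co): common lemmas for T8 and T860
-/

set_option autoImplicit false

namespace Pool.Agent.H872.RDRot

open Pool.Agent.H576.RD

theorem dt_mul (g h : LI) : dt (g * h) = dt g * dt h :=
  LinearMap.det_comp (g.toLinearEquiv : E →ₗ[ℝ] E) (h.toLinearEquiv : E →ₗ[ℝ] E)

theorem dt_one : dt 1 = 1 := LinearMap.det_id

theorem dt_negI : dt negI = -1 := by
  unfold dt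
  have h : (negI.toLinearEquiv : E →ₗ[ℝ] E) = (-1 : ℝ) • LinearMap.id := by
    apply LinearMap.ext
    intro v
    show negI v = (-1 : ℝ) • v
    rw [negI_apply, neg_one_smul]
  rw [h, LinearMap.det_smul, LinearMap.det_id, mul_one]
  have : Module.finrank ℝ E = 3 := by simp
  rw [this]
  norm_num

theorem dt_inv (g : LI) : dt g⁻¹ * dt g = 1 := by
  rw [← dt_mul, inv_mul_cancel, dt_one]

theorem dt_pow (g : LI) (n : ℕ) : dt (g ^ n) = dt g ^ n := by
  induction n with
  | zero => rw [pow_zero, pow_zero, dt_one]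
  | succ n ih => rw [pow_succ, pow_succ, dt_mul, ih]

theorem negI_comm (g : LI) : negI * g = g * negI := by
  apply LinearIsometryEquiv.ext
  intro v
  show negI (g v) = g (negI v)
  rw [negI_apply, negI_apply, map_neg]

theorem negI_sq : negI * negI = 1 := by
  apply LinearIsometryEquiv.ext
  intro v
  show negI (negI v) = v
  rw [negI_apply, negI_apply, neg_neg]

theorem negI_pow_odd (m : ℕ) (hm : Odd m) : negI ^ m = negI := by
  obtain ⟨k, rfl⟩ := hm
  rw [pow_succ, pow_mul, pow_two, negI_sq, one_pow, one_mul]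

/-- elements of odd order of `Γ` belong to `G` -/
theorem odd_mem {G Γ : Subgroup LI} (hneg : negI ∉ G)
    (h : ∀ g : LI, g ∈ Γ ↔ dt g = 1 ∧ (g ∈ G ∨ negI * g ∈ G)) {g : LI} (hg : g ∈ Γ) {m : ℕ}
    (hm : Odd m) (hgm : g ^ m = 1) : g ∈ G := by
  rcases ((h g).1 hg).2 with h1 | h1
  · exact h1
  · exfalso
    apply hneg
    have h2 : (negI * g) ^ m = negI := by
      have hc : Commute negI g := negI_comm g
      rw [hc.mul_pow, hgm, mul_one, negI_pow_odd m hm]
    rw [← h2]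
    exact pow_mem h1 m

/-- the action on the space -/
@[reducible] noncomputable def act : MulAction LI E where
  smul g v := g v
  one_smul _ := rfl
  mul_smul _ _ _ := rfl

/-- the orbit -/
def Orb (Γ : Subgroup LI) (p : E) : Set E := {v | ∃ g ∈ Γ, g p = v}

theorem card_Orb (Γ : Subgroup LI) (p : E) :
    Nat.card (Orb Γ p) * Nat.card {g : LI // g ∈ Γ ∧ g p = p} = Nat.card Γ := by
  let _ := act
  have h1 : Orb Γ p = MulAction.orbit Γ p := by
    ext v
    constructor
    · rintro ⟨g, hg, rfl⟩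
      exact ⟨⟨g, hg⟩, rfl⟩
    · rintro ⟨g, rfl⟩
      exact ⟨g.1, g.2, rfl⟩
  have e2 : {g : LI // g ∈ Γ ∧ g p = p} ≃ MulAction.stabilizer Γ p :=
    { toFun := fun g => ⟨⟨g.1, g.2.1⟩, g.2.2⟩
      invFun := fun g => ⟨g.1.1, g.1.2, g.2⟩
      left_inv := fun _ => rfl
      right_inv := fun _ => rfl }
  rw [h1, Nat.card_congr e2, ← Nat.card_prod]
  exact Nat.card_congr (MulAction.orbitProdStabilizerEquivGroup Γ p)

theorem Orb_finite (Γ : Subgroup LI) [Finite Γ] (p : E) : (Orb Γ p).Finite := by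
  have : Orb Γ p = Set.range (fun g : Γ => (g : LI) p) := by
    ext v
    constructor
    · rintro ⟨g, hg, rfl⟩
      exact ⟨⟨g, hg⟩, rfl⟩
    · rintro ⟨g, rfl⟩
      exact ⟨g.1, g.2, rfl⟩
  rw [this]
  exact Set.finite_range _

theorem neg_mem_orbit (Γ : Subgroup LI) [Finite Γ] (p : E) (hp : ‖p‖ = 1) (q k m : ℕ)
    (hq : q.Prime) (hC : Nat.card {g : LI // g ∈ Γ ∧ g p = p} = q ^ k)
    (hO : Nat.card (Orb Γ p) = m) (hm : ¬ m ≡ 1 [MOD q])
    (fix : ∀ v : E, ‖v‖ = 1 → (∀ g ∈ Γ, g p = p → g v = v) → v = p ∨ v = -p) :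
    ∃ g ∈ Γ, g p = -p := by
  by_contra hno
  let _ := act
  have : Fact q.Prime := ⟨hq⟩
  have e2 : {g : LI // g ∈ Γ ∧ g p = p} ≃ MulAction.stabilizer Γ p :=
    { toFun := fun g => ⟨⟨g.1, g.2.1⟩, g.2.2⟩
      invFun := fun g => ⟨g.1.1, g.1.2, g.2⟩
      left_inv := fun _ => rfl
      right_inv := fun _ => rfl }
  have hC' : Nat.card (MulAction.stabilizer Γ p) = q ^ k := by
    rw [← Nat.card_congr e2, hC]
  have hP : IsPGroup q (MulAction.stabilizer Γ p) := IsPGroup.of_card hC'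
  have h1 : Orb Γ p = MulAction.orbit Γ p := by
    ext v
    constructor
    · rintro ⟨g, hg, rfl⟩
      exact ⟨⟨g, hg⟩, rfl⟩
    · rintro ⟨g, rfl⟩
      exact ⟨g.1, g.2, rfl⟩
  have : Finite (MulAction.orbit Γ p) := by
    rw [← h1]
    exact (Orb_finite Γ p).to_subtype
  have h2 := hP.card_modEq_card_fixedPoints (MulAction.orbit Γ p)
  rw [h1] at hO
  rw [hO] at h2
  apply hm
  have h3 : Nat.card (MulAction.fixedPoints (MulAction.stabilizer Γ p) (MulAction.orbit Γ p)) = 1 := by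
    rw [Nat.card_eq_one_iff_unique]
    have hmem : (⟨p, MulAction.mem_orbit_self p⟩ : MulAction.orbit Γ p) ∈
        MulAction.fixedPoints (MulAction.stabilizer Γ p) (MulAction.orbit Γ p) := by
      intro g
      apply Subtype.ext
      exact g.2
    constructor
    · constructor
      rintro ⟨⟨v, hv⟩, hv'⟩ ⟨⟨w, hw⟩, hw'⟩
      have key : ∀ (v : E) (hv : v ∈ MulAction.orbit Γ p),
          (⟨v, hv⟩ : MulAction.orbit Γ p) ∈
            MulAction.fixedPoints (MulAction.stabilizer Γ p) (MulAction.orbit Γ p) → v = p := by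
        intro v hv hv'
        obtain ⟨g, hg⟩ := hv
        have hg' : (g : LI) p = v := hg
        have hn : ‖v‖ = 1 := by
          rw [← hg', LinearIsometryEquiv.norm_map, hp]
        rcases fix v hn (by
          intro g' hg'1 hg'2
          have h4 := hv' ⟨⟨g', hg'1⟩, hg'2⟩
          exact congrArg Subtype.val h4) with h | h
        · exact h
        · exfalso
          apply hno
          exact ⟨g, g.2, by rw [hg', h]⟩
      apply Subtype.ext
      apply Subtype.ext
      show v = w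
      rw [key v hv hv', key w hw hw']
    · exact ⟨⟨_, hmem⟩⟩
  rw [h3] at h2
  exact h2

theorem eq_zero_of_eq_neg {v : E} (h : v = -v) : v = 0 := by
  have h2 : (2 : ℝ) • v = 0 := by
    rw [two_smul]
    nth_rewrite 1 [h]
    exact neg_add_cancel v
  exact (smul_eq_zero.1 h2).resolve_left two_ne_zero

/-- the stabiliser of `p` -/
def St (Γ : Subgroup LI) (p : E) : Subgroup LI where
  carrier := {g | g ∈ Γ ∧ g p = p}
  mul_mem' := by
    rintro a b ⟨ha, ha'⟩ ⟨hb, hb'⟩
    refine ⟨Γ.mul_mem ha hb, ?_⟩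
    show a (b p) = p
    rw [hb', ha']
  one_mem' := ⟨Γ.one_mem, rfl⟩
  inv_mem' := by
    rintro a ⟨ha, ha'⟩
    refine ⟨Γ.inv_mem ha, ?_⟩
    have h := li_inv_apply a p
    rw [ha'] at h
    exact h

theorem mem_St {Γ : Subgroup LI} {p : E} {g : LI} : g ∈ St Γ p ↔ g ∈ Γ ∧ g p = p := Iff.rfl

theorem St_finite (Γ : Subgroup LI) [Finite Γ] (p : E) : Finite (St Γ p) :=
  Finite.of_injective (fun g : St Γ p => (⟨g.1, g.2.1⟩ : Γ)) (by
    intro a b h
    apply Subtype.ext
    exact congrArg (fun x : Γ => (x : LI)) h)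

theorem card_St (Γ : Subgroup LI) (p : E) :
    Nat.card (St Γ p) = Nat.card {g : LI // g ∈ Γ ∧ g p = p} := rfl

theorem rot_exists (hcyc : S_CYC) (Γ : Subgroup LI) [Finite Γ] (hdet : ∀ g ∈ Γ, dt g = 1) (p : E)
    (hp : ‖p‖ = 1) (n : ℕ) (hn : Nat.card {g : LI // g ∈ Γ ∧ g p = p} = n) :
    ∃ β : LI, β e2 = p ∧ ∃ ρ ∈ Γ, ρ p = p ∧ ∀ v, ρ (β v) = β (rotE (2 * Real.pi / n) v) := by
  have := St_finite Γ p
  obtain ⟨β, h1, ρ, h2, h3⟩ := hcyc (St Γ p) p this hp (fun g hg => ⟨hdet g hg.1, hg.2⟩)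
  rw [card_St, hn] at h3
  exact ⟨β, h1, ρ, h2.1, h2.2, h3⟩

theorem inner_map (g : LI) (v w : E) : (inner ℝ (g v) (g w) : ℝ) = inner ℝ v w :=
  LinearIsometryEquiv.inner_map_map g v w

theorem inner_e2 (u : E) : (inner ℝ u e2 : ℝ) = u 2 := by
  unfold e2
  rw [EuclideanSpace.inner_single_right]
  simp

/-- a frame from three orthonormal vectors -/
theorem exists_frame (a0 a1 a2 : E) (h0 : ‖a0‖ = 1) (h1 : ‖a1‖ = 1) (h2 : ‖a2‖ = 1)
    (h01 : (inner ℝ a0 a1 : ℝ) = 0) (h02 : (inner ℝ a0 a2 : ℝ) = 0)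
    (h12 : (inner ℝ a1 a2 : ℝ) = 0) :
    ∃ β : LI, ∀ v : E, β v = v 0 • a0 + v 1 • a1 + v 2 • a2 := by
  have ho : Orthonormal ℝ ![a0, a1, a2] := by
    constructor
    · intro i
      fin_cases i
      · exact h0
      · exact h1
      · exact h2
    · intro i j hij
      fin_cases i <;> fin_cases j
      · exact absurd rfl hij
      · exact h01
      · exact h02
      · show (inner ℝ a1 a0 : ℝ) = 0
        rw [real_inner_comm]
        exact h01
      · exact absurd rfl hij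
      · exact h12
      · show (inner ℝ a2 a0 : ℝ) = 0
        rw [real_inner_comm]
        exact h02
      · show (inner ℝ a2 a1 : ℝ) = 0
        rw [real_inner_comm]
        exact h12
      · exact absurd rfl hij
  have hb : ⊤ ≤ Submodule.span ℝ (Set.range ![a0, a1, a2]) := by
    have h := (basisOfOrthonormalOfCardEqFinrank ho (by simp)).span_eq
    rw [coe_basisOfOrthonormalOfCardEqFinrank] at h
    exact h.ge
  refine ⟨(OrthonormalBasis.mk ho hb).repr.symm, fun v => ?_⟩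
  rw [← OrthonormalBasis.sum_repr_symm, Fin.sum_univ_three, OrthonormalBasis.coe_mk]
  rfl

end Pool.Agent.H872.RDRot
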