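import Mathlib
import Pool.Agent.H576.RD.Stm
import Pool.Agent.H872.RDRot

/-!
# RD T8 (helper872 for helper576, MP_41c3f3_co): finite irreducible groups of order 24
-/

set_option autoImplicit false

namespace Pool.Agent.H872

open Pool.Agent.H576.RD RDRot

/-- the quarter turn: `ρ (ρ v) = 2 <v,p> p - v` -/
theorem quarter_sq {β ρ : LI} {p : E} (hβ : β e2 = p)
    (h : ∀ v, ρ (β v) = β (rotE (2 * Real.pi / (4 : ℕ)) v)) (v : E) :
    ρ (ρ v) = (2 * (inner ℝ v p : ℝ)) • p - v := by
  obtain ⟨u, rfl⟩ : ∃ u, v = β u := ⟨(β⁻¹ : LI) v, (li_apply_inv β v).symm⟩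
  rw [h, h, ← hβ, inner_map, inner_e2, ← map_smul, ← map_sub]
  congr 1
  have e1 : (2 * Real.pi / ((4 : ℕ) : ℝ)) = Real.pi / 2 := by
    push_cast
    ring
  rw [e1]
  ext i
  fin_cases i
  · simp [rotE, e2]
  · simp [rotE, e2]
  · simp [rotE, e2]
    ring

theorem t8_core (Γ : Subgroup LI) [Finite Γ] (hdet : ∀ g ∈ Γ, dt g = 1) (hc : Nat.card Γ = 24)
    (p : E) (hp : ‖p‖ = 1) (h4 : Nat.card {g : LI // g ∈ Γ ∧ g p = p} = 4) (ρ : LI) (hρ : ρ ∈ Γ)
    (hρp : ρ p = p) (hsq : ∀ v, ρ (ρ v) = (2 * (inner ℝ v p : ℝ)) • p - v) :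
    ∃ (β δ : LI), δ ∈ Γ ∧ (∀ v, ρ (β v) = β (qE v)) ∧ ∀ v, δ (β v) = β (cycE v) := by
  have hpp : (inner ℝ p p : ℝ) = 1 := by
    rw [real_inner_self_eq_norm_sq, hp]
    norm_num
  -- fixed points
  have hfix : ∀ v : E, ρ v = v → v = (inner ℝ v p : ℝ) • p := by
    intro v hv
    have h := hsq v
    rw [hv, hv] at h
    have h2 : (2 : ℝ) • v = (2 : ℝ) • ((inner ℝ v p : ℝ) • p) := by
      rw [smul_smul, two_smul ℝ v]
      nth_rewrite 1 [h]
      rw [sub_add_cancel]
    exact smul_right_injective E (two_ne_zero' ℝ) h2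
  have hfix' : ∀ v : E, ‖v‖ = 1 → ρ v = v → v = p ∨ v = -p := by
    intro v hv1 hv
    have h := hfix v hv
    have h2 : |(inner ℝ v p : ℝ)| = 1 := by
      have h3 : ‖v‖ = |(inner ℝ v p : ℝ)| * ‖p‖ := by
        conv_lhs => rw [h]
        rw [norm_smul, Real.norm_eq_abs]
      rw [hv1, hp, mul_one] at h3
      exact h3.symm
    rcases eq_or_eq_neg_of_abs_eq h2 with h5 | h5
    · left
      rw [h5, one_smul] at h
      exact h
    · right
      rw [h5, neg_one_smul] at h
      exact h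
  -- the orbit
  have hO : Nat.card (Orb Γ p) = 6 := by
    have h := card_Orb Γ p
    rw [h4, hc] at h
    omega
  have hfin := Orb_finite Γ p
  have hnorm : ∀ v ∈ Orb Γ p, ‖v‖ = 1 := by
    rintro v ⟨g, _, rfl⟩
    rw [LinearIsometryEquiv.norm_map, hp]
  obtain ⟨ν, hν, hνp⟩ := neg_mem_orbit Γ p hp 2 2 6 Nat.prime_two (by rw [h4]; norm_num) hO
    (by decide) (by
      intro v hv h
      exact hfix' v hv (h ρ hρ hρp))
  have hpO : p ∈ Orb Γ p := ⟨1, Γ.one_mem, rfl⟩
  have hnpO : -p ∈ Orb Γ p := ⟨ν, hν, hνp⟩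
  have hgO : ∀ g ∈ Γ, ∀ v ∈ Orb Γ p, g v ∈ Orb Γ p := by
    rintro g hg v ⟨g', hg', rfl⟩
    exact ⟨g * g', Γ.mul_mem hg hg', rfl⟩
  have hnegO : ∀ v ∈ Orb Γ p, -v ∈ Orb Γ p := by
    rintro v ⟨g, hg, rfl⟩
    refine ⟨g * ν, Γ.mul_mem hg hν, ?_⟩
    show g (ν p) = -g p
    rw [hνp, map_neg]
  have hncard : (Orb Γ p).ncard = 6 := hO
  -- a further point
  obtain ⟨w, hwO, hwp, hwnp⟩ : ∃ w ∈ Orb Γ p, w ≠ p ∧ w ≠ -p := by
    by_contra h
    have hsub : Orb Γ p ⊆ ({p, -p} : Set E) := by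
      intro v hv
      by_contra hv'
      apply h
      refine ⟨v, hv, ?_, ?_⟩
      · rintro rfl
        exact hv' (Or.inl rfl)
      · rintro rfl
        exact hv' (Or.inr rfl)
    have h1 := Set.ncard_le_ncard hsub (Set.toFinite _)
    have h2 : ({p, -p} : Set E).ncard ≤ 2 := Set.ncard_insert_le _ _ |>.trans (by
      rw [Set.ncard_singleton])
    omega
  have hw1 : ‖w‖ = 1 := hnorm w hwO
  have hww : (inner ℝ w w : ℝ) = 1 := by
    rw [real_inner_self_eq_norm_sq, hw1]
    norm_num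
  have hw0 : w ≠ 0 := by
    intro h
    rw [h, norm_zero] at hw1
    norm_num at hw1
  have hρinj : Function.Injective ρ := ρ.injective
  have ha : ρ w ≠ w := by
    intro h
    rcases hfix' w hw1 h with h | h
    · exact hwp h
    · exact hwnp h
  have hρ4 : ∀ v, ρ (ρ (ρ (ρ v))) = v := by
    intro v
    rw [hsq (ρ (ρ v)), hsq v, inner_sub_left, inner_smul_left, hpp]
    simp only [conj_trivial, mul_one]
    module
  have hb : ρ (ρ w) ≠ w := by
    intro h
    have h2 := hsq w
    rw [h] at h2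
    have h3 : w = (inner ℝ w p : ℝ) • p := by
      have h4 : (2 : ℝ) • w = (2 : ℝ) • ((inner ℝ w p : ℝ) • p) := by
        rw [smul_smul, two_smul ℝ w]
        nth_rewrite 1 [h2]
        rw [sub_add_cancel]
      exact smul_right_injective E (two_ne_zero' ℝ) h4
    apply ha
    rw [h3, map_smul, hρp]
  have hcw : ρ (ρ (ρ w)) ≠ w := by
    intro h
    apply ha
    have := congrArg ρ h
    rw [hρ4] at this
    exact this.symm
  have hnp : ∀ v, ρ v = p → v = p := by
    intro v hv
    apply hρinj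
    rw [hv, hρp]
  have hnp' : ∀ v, ρ v = -p → v = -p := by
    intro v hv
    apply hρinj
    rw [hv, map_neg, hρp]
  -- `w` is orthogonal to `p`
  have hwp0 : (inner ℝ w p : ℝ) = 0 := by
    by_contra hne
    have hi1 : (inner ℝ (ρ w) p : ℝ) = inner ℝ w p := by
      conv_lhs => rw [← hρp]
      rw [inner_map]
    have hi2 : (inner ℝ (ρ (ρ w)) p : ℝ) = inner ℝ w p := by
      conv_lhs => rw [← hρp]
      rw [inner_map, hi1]
    have hi3 : (inner ℝ (ρ (ρ (ρ w))) p : ℝ) = inner ℝ w p := by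
      conv_lhs => rw [← hρp]
      rw [inner_map, hi2]
    have hin : (inner ℝ (-w) p : ℝ) ≠ inner ℝ w p := by
      rw [inner_neg_left]
      intro h
      apply hne
      linarith
    have hlist : ({p, -p, w, ρ w, ρ (ρ w), ρ (ρ (ρ w)), -w} : Finset E).card = 7 := by
      have hp0 : p ≠ -p := by
        intro h
        have h2 : p = 0 := eq_zero_of_eq_neg h
        rw [h2, norm_zero] at hp
        norm_num at hp
      rw [Finset.card_insert_of_notMem, Finset.card_insert_of_notMem,
        Finset.card_insert_of_notMem, Finset.card_insert_of_notMem, Finset.card_insert_of_notMem,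
        Finset.card_insert_of_notMem, Finset.card_singleton]
      · rw [Finset.mem_singleton]
        intro h
        apply hin
        rw [← h, hi3]
      · simp only [Finset.mem_insert, Finset.mem_singleton, not_or]
        refine ⟨?_, ?_⟩
        · intro h
          exact ha (hρinj (hρinj h)).symm
        · intro h
          apply hin
          rw [← h, hi2]
      · simp only [Finset.mem_insert, Finset.mem_singleton, not_or]
        refine ⟨?_, ?_, ?_⟩
        · intro h
          exact ha (hρinj h).symm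
        · intro h
          exact hb (hρinj h).symm
        · intro h
          apply hin
          rw [← h, hi1]
      · simp only [Finset.mem_insert, Finset.mem_singleton, not_or]
        refine ⟨fun h => ha h.symm, fun h => hb h.symm, fun h => hcw h.symm, ?_⟩
        intro h
        apply hin
        rw [← h]
      · simp only [Finset.mem_insert, Finset.mem_singleton, not_or]
        refine ⟨fun h => hwnp h.symm, fun h => hwnp (hnp' w h.symm), fun h =>
          hwnp (hnp' w (hnp' _ h.symm)), fun h => hwnp (hnp' w (hnp' _ (hnp' _ h.symm))), ?_⟩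
        intro h
        exact hwp (neg_injective h).symm
      · simp only [Finset.mem_insert, Finset.mem_singleton, not_or]
        refine ⟨hp0, fun h => hwp h.symm, fun h => hwp (hnp w h.symm), fun h =>
          hwp (hnp w (hnp _ h.symm)), fun h => hwp (hnp w (hnp _ (hnp _ h.symm))), ?_⟩
        intro h
        apply hwnp
        rw [h, neg_neg]
    have hsub : (({p, -p, w, ρ w, ρ (ρ w), ρ (ρ (ρ w)), -w} : Finset E) : Set E) ⊆ Orb Γ p := by
      intro v hv
      simp only [Finset.coe_insert, Finset.coe_singleton, Set.mem_insert_iff,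
        Set.mem_singleton_iff] at hv
      rcases hv with rfl | rfl | rfl | rfl | rfl | rfl | rfl
      · exact hpO
      · exact hnpO
      · exact hwO
      · exact hgO ρ hρ _ hwO
      · exact hgO ρ hρ _ (hgO ρ hρ _ hwO)
      · exact hgO ρ hρ _ (hgO ρ hρ _ (hgO ρ hρ _ hwO))
      · exact hnegO _ hwO
    have h1 := Set.ncard_le_ncard hsub hfin
    rw [Set.ncard_coe_finset, hlist] at h1
    omega
  have hρ2 : ρ (ρ w) = -w := by
    rw [hsq, hwp0, mul_zero, zero_smul, zero_sub]
  have hwr : (inner ℝ w (ρ w) : ℝ) = 0 := by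
    have h := inner_map ρ w (ρ w)
    rw [hρ2, inner_neg_right, real_inner_comm] at h
    linarith
  have hrp : (inner ℝ (ρ w) p : ℝ) = 0 := by
    conv_lhs => rw [← hρp]
    rw [inner_map, hwp0]
  have hrO : ρ w ∈ Orb Γ p := hgO ρ hρ _ hwO
  have hr1 : ‖ρ w‖ = 1 := hnorm _ hrO
  -- the list of the orbit
  have hlistO : ∀ v ∈ Orb Γ p, v = p ∨ v = -p ∨ v = w ∨ v = -w ∨ v = ρ w ∨ v = -ρ w := by
    have hrr : (inner ℝ (ρ w) (ρ w) : ℝ) = 1 := by rw [inner_map, hww]
    have hne : ∀ a b : E, (inner ℝ a a : ℝ) = 1 → (inner ℝ a b : ℝ) = 0 → a ≠ b ∧ a ≠ -b := by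
      intro a b h1 h2
      constructor
      · intro h
        rw [← h] at h2
        linarith
      · intro h
        have h3 : b = -a := by rw [h, neg_neg]
        rw [h3, inner_neg_right] at h2
        linarith
    have hself : ∀ a : E, (inner ℝ a a : ℝ) = 1 → a ≠ -a := by
      intro a h1 h
      have h2 : a = 0 := eq_zero_of_eq_neg h
      rw [h2, inner_zero_left] at h1
      norm_num at h1
    have hpw : (inner ℝ p w : ℝ) = 0 := by rw [real_inner_comm]; exact hwp0
    have hpr : (inner ℝ p (ρ w) : ℝ) = 0 := by rw [real_inner_comm]; exact hrp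
    have hcard : ({p, -p, w, -w, ρ w, -ρ w} : Finset E).card = 6 := by
      rw [Finset.card_insert_of_notMem, Finset.card_insert_of_notMem,
        Finset.card_insert_of_notMem, Finset.card_insert_of_notMem, Finset.card_insert_of_notMem,
        Finset.card_singleton]
      · rw [Finset.mem_singleton]
        exact hself _ hrr
      · simp only [Finset.mem_insert, Finset.mem_singleton, not_or]
        exact ⟨fun h => (hne _ _ hww hwr).2 (by rw [← h, neg_neg]),
          fun h => (hne _ _ hww hwr).1 (neg_injective h)⟩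
      · simp only [Finset.mem_insert, Finset.mem_singleton, not_or]
        exact ⟨hself _ hww, (hne _ _ hww hwr).1, (hne _ _ hww hwr).2⟩
      · simp only [Finset.mem_insert, Finset.mem_singleton, not_or]
        exact ⟨fun h => (hne _ _ hpp hpw).2 (by rw [← h, neg_neg]),
          fun h => (hne _ _ hpp hpw).1 (neg_injective h),
          fun h => (hne _ _ hpp hpr).2 (by rw [← h, neg_neg]),
          fun h => (hne _ _ hpp hpr).1 (neg_injective h)⟩
      · simp only [Finset.mem_insert, Finset.mem_singleton, not_or]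
        exact ⟨hself _ hpp, (hne _ _ hpp hpw).1, (hne _ _ hpp hpw).2, (hne _ _ hpp hpr).1,
          (hne _ _ hpp hpr).2⟩
    have hsub : (({p, -p, w, -w, ρ w, -ρ w} : Finset E) : Set E) ⊆ Orb Γ p := by
      intro v hv
      simp only [Finset.coe_insert, Finset.coe_singleton, Set.mem_insert_iff,
        Set.mem_singleton_iff] at hv
      rcases hv with rfl | rfl | rfl | rfl | rfl | rfl
      · exact hpO
      · exact hnpO
      · exact hwO
      · exact hnegO _ hwO
      · exact hrO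
      · exact hnegO _ hrO
    have heq := Set.eq_of_subset_of_ncard_le hsub (by
      rw [Set.ncard_coe_finset, hcard, hncard]) hfin
    intro v hv
    rw [← heq] at hv
    simpa only [Finset.coe_insert, Finset.coe_singleton, Set.mem_insert_iff,
      Set.mem_singleton_iff] using hv
  -- the frame
  obtain ⟨β, hβ⟩ := exists_frame w (ρ w) p hw1 hr1 hp hwr hwp0 hrp
  have hβρ : ∀ v, ρ (β v) = β (qE v) := by
    intro v
    rw [hβ, hβ, map_add, map_add, map_smul, map_smul, map_smul, hρ2, hρp]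
    simp only [qE]
    simp
    module
  have hext : ∀ g h : LI, g w = h w → g (ρ w) = h (ρ w) → g p = h p → g = h := by
    intro g h h1 h2 h3
    apply LinearIsometryEquiv.ext
    intro x
    obtain ⟨v, rfl⟩ : ∃ u, x = β u := ⟨(β⁻¹ : LI) x, (li_apply_inv β x).symm⟩
    rw [hβ, map_add, map_add, map_smul, map_smul, map_smul, map_add, map_add, map_smul, map_smul,
      map_smul, h1, h2, h3]
  -- the element of order three
  obtain ⟨γ, hγ, hγp⟩ := hwO
  obtain ⟨γ', hγ', hγ'p, hγ'w⟩ : ∃ γ' ∈ Γ, γ' p = w ∧ γ' w = ρ w := by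
    have h1 : (γ⁻¹ : LI) (ρ w) ∈ Orb Γ p := hgO _ (Γ.inv_mem hγ) _ hrO
    have h2 : (inner ℝ ((γ⁻¹ : LI) (ρ w)) p : ℝ) = 0 := by
      rw [← inner_map γ, li_apply_inv, hγp, real_inner_comm]
      exact hwr
    have h3 : ∀ x : E, (γ⁻¹ : LI) (ρ w) = x → γ x = ρ w := by
      rintro x rfl
      exact li_apply_inv γ _
    rcases hlistO _ h1 with h | h | h | h | h | h
    · rw [h, hpp] at h2
      norm_num at h2
    · rw [h, inner_neg_left, hpp] at h2
      norm_num at h2
    · exact ⟨γ, hγ, hγp, h3 _ h⟩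
    · refine ⟨γ * (ρ * ρ), Γ.mul_mem hγ (Γ.mul_mem hρ hρ), ?_, ?_⟩
      · show γ (ρ (ρ p)) = w
        rw [hρp, hρp, hγp]
      · show γ (ρ (ρ w)) = ρ w
        rw [hρ2]
        exact h3 _ h
    · refine ⟨γ * ρ, Γ.mul_mem hγ hρ, ?_, ?_⟩
      · show γ (ρ p) = w
        rw [hρp, hγp]
      · exact h3 _ h
    · refine ⟨γ * (ρ * (ρ * ρ)), Γ.mul_mem hγ (Γ.mul_mem hρ (Γ.mul_mem hρ hρ)), ?_, ?_⟩
      · show γ (ρ (ρ (ρ p))) = w
        rw [hρp, hρp, hρp, hγp]
      · show γ (ρ (ρ (ρ w))) = ρ w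
        rw [hρ2, map_neg]
        exact h3 _ h
  have hγ'r : γ' (ρ w) = p := by
    have h1 : γ' (ρ w) ∈ Orb Γ p := hgO _ hγ' _ hrO
    have h2 : (inner ℝ (γ' (ρ w)) w : ℝ) = 0 := by
      nth_rewrite 2 [← hγ'p]
      rw [inner_map, hrp]
    have h3 : (inner ℝ (γ' (ρ w)) (ρ w) : ℝ) = 0 := by
      nth_rewrite 2 [← hγ'w]
      rw [inner_map, real_inner_comm, hwr]
    rcases hlistO _ h1 with h | h | h | h | h | h
    · exact h
    · exfalso
      have h5 : γ' ^ 3 = negI := by
        apply hext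
        · show γ' (γ' (γ' w)) = negI w
          rw [hγ'w, h, map_neg, hγ'p, negI_apply]
        · show γ' (γ' (γ' (ρ w))) = negI (ρ w)
          rw [h, map_neg, hγ'p, map_neg, hγ'w, negI_apply]
        · show γ' (γ' (γ' p)) = negI p
          rw [hγ'p, hγ'w, h, negI_apply]
      have h6 := dt_pow γ' 3
      rw [h5, dt_negI, hdet γ' hγ'] at h6
      norm_num at h6
    · rw [h, hww] at h2
      norm_num at h2
    · rw [h, inner_neg_left, hww] at h2
      norm_num at h2
    · rw [h, inner_map, hww] at h3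
      norm_num at h3
    · rw [h, inner_neg_left, inner_map, hww] at h3
      norm_num at h3
  refine ⟨β, γ' * γ', Γ.mul_mem hγ' hγ', hβρ, ?_⟩
  intro v
  show γ' (γ' (β v)) = β (cycE v)
  rw [hβ, hβ]
  simp only [map_add, map_smul, hγ'w, hγ'r, hγ'p]
  simp only [cycE]
  simp
  module

theorem rd_t8 (h1 : S_GAM) (h2 : S_CYC) (h3 : S_POLE) : S_T8 := by
  intro G hG hirr hneg hc
  obtain ⟨Γ, hΓ, hdet, hirr', hcard, hmem⟩ := h1 G hG hirr hneg
  rw [hc] at hcard
  rcases h3 Γ hΓ hdet hirr' with h | ⟨_, p, hp, h4⟩ | ⟨h, _⟩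
  · omega
  · obtain ⟨β0, hβ0, ρ, hρ, hρp, hrot⟩ := rot_exists h2 Γ hdet p hp 4 h4
    obtain ⟨β, δ, hδ, hβρ, hβδ⟩ := t8_core Γ hdet hcard p hp h4 ρ hρ hρp (quarter_sq hβ0 hrot)
    have hfr : ∀ g h : LI, (∀ v, g (β v) = h (β v)) → g = h := by
      intro g h hgh
      apply LinearIsometryEquiv.ext
      intro x
      have := hgh ((β⁻¹ : LI) x)
      rw [li_apply_inv] at this
      exact this
    -- `δ ∈ G`
    have hδ3 : δ ^ 3 = 1 := by
      apply hfr
      intro v
      show δ (δ (δ (β v))) = β v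
      rw [hβδ, hβδ, hβδ]
      congr 1
      ext i
      fin_cases i <;> simp [cycE]
    have hδG : δ ∈ G := odd_mem hneg hmem hδ (by decide : Odd 3) hδ3
    have hρδ3 : (ρ * ρ * δ) ^ 3 = 1 := by
      apply hfr
      intro v
      show ρ (ρ (δ (ρ (ρ (δ (ρ (ρ (δ (β v))))))))) = β v
      simp only [hβδ, hβρ]
      congr 1
      ext i
      fin_cases i <;> simp [cycE, qE]
    have hρδ : ρ * ρ * δ ∈ G := odd_mem hneg hmem (Γ.mul_mem (Γ.mul_mem hρ hρ) hδ)
      (by decide : Odd 3) hρδ3
    have hρρ : ρ * ρ ∈ G := by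
      have h := G.mul_mem hρδ (G.inv_mem hδG)
      rwa [mul_inv_cancel_right] at h
    have hd : HasB G β dE := by
      refine ⟨δ * δ * (ρ * ρ) * δ, G.mul_mem (G.mul_mem (G.mul_mem hδG hδG) hρρ) hδG, ?_⟩
      intro v
      show δ (δ (ρ (ρ (δ (β v))))) = β (dE v)
      simp only [hβδ, hβρ]
      rfl
    refine ⟨β, ⟨δ, hδG, hβδ⟩, hd, ?_⟩
    rcases ((hmem ρ).1 hρ).2 with h | h
    · left
      exact ⟨ρ, h, hβρ⟩
    · right
      obtain ⟨g, hg, hgβ⟩ := hd
      refine ⟨g * (negI * ρ), G.mul_mem hg h, ?_⟩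
      intro v
      show g (negI (ρ (β v))) = β (swE v)
      rw [hβρ, negI_apply, ← map_neg, hgβ]
      congr 1
      ext i
      fin_cases i <;> simp [qE, dE, swE]
  · omega

end Pool.Agent.H872
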