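import Mathlib
import Pool.Agent.H576.RD.Stm
import Pool.Agent.H872.RDRot

/-!
# RD T860 (helper872 for helper576, MP_41c3f3_co): finite irreducible groups of order 60
-/

set_option autoImplicit false

namespace Pool.Agent.H872

open Pool.Agent.H576.RD RDRot

theorem cos_two_pi_div_five : Real.cos (2 * Real.pi / (5 : ℕ)) = (√5 - 1) / 4 := by
  have e : 2 * Real.pi / ((5 : ℕ) : ℝ) = 2 * (Real.pi / 5) := by
    push_cast
    ring
  rw [e, Real.cos_two_mul, Real.cos_pi_div_five]
  have h5 : √5 ^ 2 = 5 := Real.sq_sqrt (by norm_num)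
  nlinarith

/-- displacement of a rotation -/
theorem rot_disp {β ρ : LI} {p : E} {θ : ℝ} (hβ : β e2 = p)
    (h : ∀ v, ρ (β v) = β (rotE θ v)) (v : E) :
    ‖ρ v - v‖ ^ 2 = (2 - 2 * Real.cos θ) * (‖v‖ ^ 2 - (inner ℝ v p : ℝ) ^ 2) := by
  obtain ⟨u, rfl⟩ : ∃ u, v = β u := ⟨(β⁻¹ : LI) v, (li_apply_inv β v).symm⟩
  rw [h, ← hβ, inner_map, inner_e2, ← map_sub, LinearIsometryEquiv.norm_map,
    LinearIsometryEquiv.norm_map, EuclideanSpace.norm_sq_eq, EuclideanSpace.norm_sq_eq,
    Fin.sum_univ_three, Fin.sum_univ_three]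
  simp only [Real.norm_eq_abs, sq_abs]
  have e0 : (rotE θ u - u) 0 = Real.cos θ * u 0 - Real.sin θ * u 1 - u 0 := by
    simp [rotE]
  have e1 : (rotE θ u - u) 1 = Real.sin θ * u 0 + Real.cos θ * u 1 - u 1 := by
    simp [rotE]
  have e2' : (rotE θ u - u) 2 = 0 := by
    simp [rotE]
  rw [e0, e1, e2']
  have hs := Real.sin_sq_add_cos_sq θ
  linear_combination (u 0 ^ 2 + u 1 ^ 2) * hs

theorem disp_fix {ρ : LI} {p : E} {c : ℝ} (hp : ‖p‖ = 1) (hc : 0 < c)
    (h : ∀ v, ‖ρ v - v‖ ^ 2 = c * (‖v‖ ^ 2 - (inner ℝ v p : ℝ) ^ 2)) (v : E) (hv : ρ v = v) :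
    v = (inner ℝ v p : ℝ) • p := by
  have h1 := h v
  rw [hv, sub_self, norm_zero] at h1
  have h2 : ‖v‖ ^ 2 - (inner ℝ v p : ℝ) ^ 2 = 0 := by
    have : c * (‖v‖ ^ 2 - (inner ℝ v p : ℝ) ^ 2) = 0 := by
      rw [← h1]
      norm_num
    exact (mul_eq_zero.1 this).resolve_left hc.ne'
  have h3 : ‖v - (inner ℝ v p : ℝ) • p‖ ^ 2 = 0 := by
    rw [norm_sub_sq_real, inner_smul_right, norm_smul, hp, mul_one, Real.norm_eq_abs, sq_abs]
    linear_combination h2
  have h4 : v - (inner ℝ v p : ℝ) • p = 0 := by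
    rw [← norm_eq_zero]
    exact pow_eq_zero_iff (two_ne_zero) |>.1 h3
  exact sub_eq_zero.1 h4

theorem odd_fix {g : LI} (hg : g ^ 5 = 1) {a : E} (ha : a ≠ 0) (h : g a = a ∨ g a = -a) :
    g a = a := by
  rcases h with h | h
  · exact h
  · exfalso
    have h1 : (g ^ 5) a = -a := by
      show g (g (g (g (g a)))) = -a
      rw [h, map_neg, h, neg_neg, h, map_neg, h, neg_neg, h]
    rw [hg] at h1
    exact ha (eq_zero_of_eq_neg h1)

theorem rd_t860 (h1 : S_GAM) (h2 : S_CYC) (h3 : S_POLE) : S_T860 := by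
  intro G hG hirr hneg hc
  obtain ⟨Γ, hΓ, hdet, hirr', hcard, hmem⟩ := h1 G hG hirr hneg
  rw [hc] at hcard
  rcases h3 Γ hΓ hdet hirr' with h | ⟨h, _⟩ | ⟨_, p, hp, h5⟩
  · omega
  · omega
  · obtain ⟨β0, hβ0, ρ, hρ, hρp, hrot⟩ := rot_exists h2 Γ hdet p hp 5 h5
    have hdisp := rot_disp hβ0 hrot
    rw [cos_two_pi_div_five] at hdisp
    have hs5 : √5 ^ 2 = 5 := Real.sq_sqrt (by norm_num)
    have hs0 : 0 ≤ √5 := Real.sqrt_nonneg 5
    have hs1 : √5 < 2.24 := by
      rw [Real.sqrt_lt' (by norm_num)]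
      norm_num
    have hs2 : 2.22 < √5 := by
      rw [Real.lt_sqrt (by norm_num)]
      norm_num
    have hcpos : 0 < 2 - 2 * ((√5 - 1) / 4) := by linarith
    have hfix : ∀ v : E, ρ v = v → v = (inner ℝ v p : ℝ) • p := disp_fix hp hcpos hdisp
    have hfix' : ∀ v : E, ‖v‖ = 1 → ρ v = v → v = p ∨ v = -p := by
      intro v hv1 hv
      have h := hfix v hv
      have h2 : |(inner ℝ v p : ℝ)| = 1 := by
        have h3 : ‖v‖ = |(inner ℝ v p : ℝ)| * ‖p‖ := by
          conv_lhs => rw [h]
          rw [norm_smul, Real.norm_eq_abs]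
        rw [hv1, hp, mul_one] at h3
        exact h3.symm
      rcases eq_or_eq_neg_of_abs_eq h2 with h5 | h5
      · left
        rw [h5, one_smul] at h
        exact h
      · right
        rw [h5, neg_one_smul] at h
        exact h
    have hO : Nat.card (Orb Γ p) = 12 := by
      have h := card_Orb Γ p
      rw [h5, hcard] at h
      omega
    obtain ⟨ν, hν, hνp⟩ := neg_mem_orbit Γ p hp 5 1 12 Nat.prime_five (by rw [h5]; norm_num) hO
      (by decide) (by
        intro v hv h
        exact hfix' v hv (h ρ hρ hρp))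
    -- order five
    have hρ5 : ρ ^ 5 = 1 := by
      have := St_finite Γ p
      have h6 : (⟨ρ, hρ, hρp⟩ : St Γ p) ^ (Nat.card (St Γ p)) = 1 := pow_card_eq_one'
      rw [card_St, h5] at h6
      exact congrArg Subtype.val h6
    have hodd5 : Odd 5 := by decide
    have hρG : ρ ∈ G := odd_mem hneg hmem hρ hodd5 hρ5
    have hνG : ν ∈ G := by
      by_contra hν'
      let H : Subgroup Γ := G.subgroupOf Γ
      have hHmem : ∀ b : Γ, b ∈ H ↔ (b : LI) ∈ G := fun b => Subgroup.mem_subgroupOf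
      have hidx : H.index = 2 := by
        rw [Subgroup.index_eq_two_iff]
        refine ⟨⟨ν, hν⟩, fun b => ?_⟩
        rw [hHmem, hHmem]
        show Xor (b.1 * ν ∈ G) (b.1 ∈ G)
        by_cases hb : b.1 ∈ G
        · right
          refine ⟨hb, fun h => hν' ?_⟩
          have := G.mul_mem (G.inv_mem hb) h
          rwa [inv_mul_cancel_left] at this
        · left
          refine ⟨?_, hb⟩
          have h6 := (((hmem b.1).1 b.2).2).resolve_left hb
          have h7 := (((hmem ν).1 hν).2).resolve_left hν'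
          have h8 := G.mul_mem h6 h7
          have h9 : negI * b.1 * (negI * ν) = b.1 * ν := by
            rw [negI_comm, mul_assoc, ← mul_assoc negI negI, negI_sq, one_mul]
          rwa [h9] at h8
      have hcH : Nat.card H * 2 = 60 := by
        rw [← hidx, ← hcard]
        exact Subgroup.card_mul_index H
      let K : Subgroup LI := H.map Γ.subtype
      have hcK : Nat.card K = Nat.card H :=
        (Nat.card_congr (H.equivMapOfInjective Γ.subtype Γ.subtype_injective).toEquiv).symm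
      have hKmem : ∀ g : LI, g ∈ Γ → g ∈ G → g ∈ K := by
        intro g h6 h7
        exact ⟨⟨g, h6⟩, (hHmem _).2 h7, rfl⟩
      have hKΓ : ∀ g ∈ K, g ∈ Γ := by
        rintro g ⟨b, _, rfl⟩
        exact b.2
      have hKfin : Finite K := by
        apply Nat.finite_of_card_ne_zero
        omega
      have hKirr : Irr K := by
        intro a ha
        by_contra hno
        have hall : ∀ g ∈ K, g a = a ∨ g a = -a := by
          intro g hg
          by_contra h6
          rw [not_or] at h6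
          exact hno ⟨g, hg, h6.1, h6.2⟩
        have hρa : ρ a = a := odd_fix hρ5 ha (hall ρ (hKmem ρ hρ hρG))
        have hap := hfix a hρa
        have hp0 : p ≠ 0 := by
          intro h
          rw [h, norm_zero] at hp
          norm_num at hp
        obtain ⟨γ, hγ, hγ1, hγ2⟩ := hirr' p hp0
        have hr5 : (γ * ρ * γ⁻¹) ^ 5 = 1 := by
          rw [conj_pow, hρ5, mul_one, mul_inv_cancel]
        have hrΓ : γ * ρ * γ⁻¹ ∈ Γ := Γ.mul_mem (Γ.mul_mem hγ hρ) (Γ.inv_mem hγ)
        have hrG : γ * ρ * γ⁻¹ ∈ G := odd_mem hneg hmem hrΓ hodd5 hr5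
        have hra : (γ * ρ * γ⁻¹) a = a := odd_fix hr5 ha (hall _ (hKmem _ hrΓ hrG))
        have hρa' : ρ ((γ⁻¹ : LI) a) = (γ⁻¹ : LI) a := by
          apply γ.injective
          rw [li_apply_inv]
          exact hra
        have hap' := hfix _ hρa'
        have hag : a = (inner ℝ ((γ⁻¹ : LI) a) p : ℝ) • γ p := by
          rw [← map_smul, ← hap', li_apply_inv]
        set t := (inner ℝ a p : ℝ) with ht
        set s := (inner ℝ ((γ⁻¹ : LI) a) p : ℝ) with hs
        have ht0 : t ≠ 0 := by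
          intro h
          rw [h, zero_smul] at hap
          exact ha hap
        have hnorm1 : ‖a‖ = |t| := by
          rw [hap, norm_smul, hp, mul_one, Real.norm_eq_abs]
        have hnorm2 : ‖a‖ = |s| := by
          rw [hag, norm_smul, LinearIsometryEquiv.norm_map, hp, mul_one, Real.norm_eq_abs]
        have hts : |t| = |s| := by rw [← hnorm1, hnorm2]
        have heq : t • p = s • γ p := by rw [← hap, ← hag]
        rcases abs_eq_abs.1 hts with h6 | h6
        · rw [← h6] at heq
          exact hγ1 (smul_right_injective E ht0 heq).symm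
        · have h7 : s = -t := by rw [h6, neg_neg]
          rw [h7, neg_smul, ← smul_neg] at heq
          have h8 : p = -γ p := smul_right_injective E ht0 heq
          apply hγ2
          calc γ p = - -γ p := (neg_neg _).symm
            _ = -p := by rw [← h8]
      rcases h3 K hKfin (fun g hg => hdet g (hKΓ g hg)) hKirr with h | ⟨h, _⟩ | ⟨h, _⟩ <;> omega
    refine ⟨p, hp, ⟨ν, hνG, hνp⟩, ρ, hρG, ?_, ?_⟩
    · intro v
      rw [hdisp v]
      apply mul_le_mul_of_nonneg_right
      · linarith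
      · have h6 := abs_real_inner_le_norm v p
        rw [hp, mul_one] at h6
        have h7 := sq_abs (inner ℝ v p : ℝ)
        have h8 := abs_nonneg (inner ℝ v p : ℝ)
        nlinarith
    · intro v hv
      exact ⟨_, hfix v hv⟩

end Pool.Agent.H872
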